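import Pool.Agent.Y545.HM.Ideal

/-!
Cone avoidance: relations enumerable in an oracle and information on a second set; the basis
theorem for effectively closed classes.
-/

namespace Pool.Agent.R603.HEP

open Encodable Pool.Agent.Helper446 Pool.Agent.Helper446.Defs Pool.Agent.Helper446.Oracle
open Pool.Agent.Y545.HM

/-- finite conditions -/
abbrev Cd : Type := List ℕ × List ℕ

@[fun_prop] theorem c_div2 {α : Type*} [Primcodable α] {f : α → ℕ} (hf : Computable f) :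
    Computable (fun x => f x / 2) :=
  (Primrec.nat_div.comp Primrec.id (Primrec.const 2)).to_comp.comp hf

@[fun_prop] theorem c_mod2 {α : Type*} [Primcodable α] {f : α → ℕ} (hf : Computable f) :
    Computable (fun x => f x % 2) :=
  (Primrec.nat_mod.comp Primrec.id (Primrec.const 2)).to_comp.comp hf

theorem dec_join {W A B : Set ℕ} (hA : Dec W A) (hB : Dec W B) : Dec W (join A B) := by
  have h1 : ∀ n, n ∈ join A B ↔ (n % 2 = 0 ∧ n / 2 ∈ A) ∨ (n % 2 = 1 ∧ n / 2 ∈ B) := by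
    intro n
    rcases Nat.even_or_odd' n with ⟨m, rfl | rfl⟩
    · rw [mem_join_left]
      simp
    · rw [mem_join_right]
      have e1 : (2 * m + 1) % 2 = 1 := by omega
      have e2 : (2 * m + 1) / 2 = m := by omega
      simp [e1, e2]
  have h2 : ∀ n, n ∉ join A B ↔ (n % 2 = 0 ∧ n / 2 ∉ A) ∨ (n % 2 = 1 ∧ n / 2 ∉ B) := by
    intro n
    rcases Nat.even_or_odd' n with ⟨m, rfl | rfl⟩
    · rw [mem_join_left]
      simp
    · rw [mem_join_right]
      have e1 : (2 * m + 1) % 2 = 1 := by omega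
      have e2 : (2 * m + 1) / 2 = m := by omega
      simp [e1, e2]
  constructor
  · refine REIn.of_eq ?_ fun n => (h1 n).symm
    refine REIn.or (REIn.and (REIn.of_re (RE.eq (by fun_prop) (by fun_prop))) ?_)
      (REIn.and (REIn.of_re (RE.eq (by fun_prop) (by fun_prop))) ?_)
    · exact hA.1.comp (f := fun n : ℕ => n / 2) (by fun_prop)
    · exact hB.1.comp (f := fun n : ℕ => n / 2) (by fun_prop)
  · refine REIn.of_eq ?_ fun n => (h2 n).symm
    refine REIn.or (REIn.and (REIn.of_re (RE.eq (by fun_prop) (by fun_prop))) ?_)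
      (REIn.and (REIn.of_re (RE.eq (by fun_prop) (by fun_prop))) ?_)
    · exact hA.2.comp (f := fun n : ℕ => n / 2) (by fun_prop)
    · exact hB.2.comp (f := fun n : ℕ => n / 2) (by fun_prop)

/-- Two oracles. -/
theorem re_join_iff {α : Type*} [Primcodable α] {Z G : Set ℕ} {S : α → Prop} :
    REIn (join Z G) S ↔ ∃ Q : α → Cd → Prop, REIn Z (fun x : α × Cd => Q x.1 x.2) ∧
      ∀ a, S a ↔ ∃ c, Q a c ∧ Ok G c := by
  classical
  constructor
  · rintro ⟨R, hR, h⟩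
    refine ⟨fun a c' => ∃ c : Cd, R a c ∧
      (∀ x ∈ c.1, (x % 2 = 0 ∧ x / 2 ∈ Z) ∨ (x % 2 = 1 ∧ x / 2 ∈ c'.1)) ∧
      (∀ x ∈ c.2, (x % 2 = 0 ∧ x / 2 ∉ Z) ∨ (x % 2 = 1 ∧ x / 2 ∈ c'.2)), ?_, fun a => ?_⟩
    · refine REIn.ex (S := fun (y : α × Cd) (c : Cd) => R y.1 c ∧
        (∀ x ∈ c.1, (x % 2 = 0 ∧ x / 2 ∈ Z) ∨ (x % 2 = 1 ∧ x / 2 ∈ y.2.1)) ∧
        (∀ x ∈ c.2, (x % 2 = 0 ∧ x / 2 ∉ Z) ∨ (x % 2 = 1 ∧ x / 2 ∈ y.2.2))) ?_
      refine REIn.and (REIn.of_re ?_) (REIn.and ?_ ?_)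
      · exact RE.comp hR (f := fun x : (α × Cd) × Cd => (x.1.1, x.2)) (by fun_prop)
      · refine REIn.all_mem (S := fun (y : (α × Cd) × Cd) (x : ℕ) =>
          (x % 2 = 0 ∧ x / 2 ∈ Z) ∨ (x % 2 = 1 ∧ x / 2 ∈ y.1.2.1)) ?_ (by fun_prop)
        refine REIn.or (REIn.and (REIn.of_re (RE.eq (by fun_prop) (by fun_prop)))
          (REIn.mem (by fun_prop))) (REIn.of_re (RE.and (RE.eq (by fun_prop) (by fun_prop)) ?_))
        exact RE.mem_list (by fun_prop) (by fun_prop)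
      · refine REIn.all_mem (S := fun (y : (α × Cd) × Cd) (x : ℕ) =>
          (x % 2 = 0 ∧ x / 2 ∉ Z) ∨ (x % 2 = 1 ∧ x / 2 ∈ y.1.2.2)) ?_ (by fun_prop)
        refine REIn.or (REIn.and (REIn.of_re (RE.eq (by fun_prop) (by fun_prop)))
          (REIn.not_mem (by fun_prop))) (REIn.of_re (RE.and (RE.eq (by fun_prop) (by fun_prop)) ?_))
        exact RE.mem_list (by fun_prop) (by fun_prop)
    · rw [h]
      constructor
      · rintro ⟨c, h1, h2, h3⟩
        refine ⟨((c.1.filter (fun x => x % 2 = 1)).map (· / 2),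
          (c.2.filter (fun x => x % 2 = 1)).map (· / 2)), ⟨c, h1, ?_, ?_⟩, ?_, ?_⟩
        · intro x hx
          have h4 := h2 x hx
          rcases Nat.even_or_odd' x with ⟨m, rfl | rfl⟩
          · left
            rw [mem_join_left] at h4
            simpa using h4
          · right
            refine ⟨by omega, List.mem_map.2 ⟨2 * m + 1, List.mem_filter.2 ⟨hx, ?_⟩, rfl⟩⟩
            simp only [decide_eq_true_eq]
            omega
        · intro x hx
          have h4 := h3 x hx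
          rcases Nat.even_or_odd' x with ⟨m, rfl | rfl⟩
          · left
            rw [mem_join_left] at h4
            simpa using h4
          · right
            refine ⟨by omega, List.mem_map.2 ⟨2 * m + 1, List.mem_filter.2 ⟨hx, ?_⟩, rfl⟩⟩
            simp only [decide_eq_true_eq]
            omega
        · intro y hy
          obtain ⟨x, hx, rfl⟩ := List.mem_map.1 hy
          obtain ⟨hx1, hx2⟩ := List.mem_filter.1 hx
          simp only [decide_eq_true_eq] at hx2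
          have h4 := h2 x hx1
          have e : x = 2 * (x / 2) + 1 := by omega
          rw [e, mem_join_right] at h4
          exact h4
        · intro y hy
          obtain ⟨x, hx, rfl⟩ := List.mem_map.1 hy
          obtain ⟨hx1, hx2⟩ := List.mem_filter.1 hx
          simp only [decide_eq_true_eq] at hx2
          have h4 := h3 x hx1
          have e : x = 2 * (x / 2) + 1 := by omega
          rw [e, mem_join_right] at h4
          exact h4
      · rintro ⟨c', ⟨c, h1, h2, h3⟩, h4, h5⟩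
        refine ⟨c, h1, ?_, ?_⟩
        · intro x hx
          rcases h2 x hx with ⟨h6, h7⟩ | ⟨h6, h7⟩
          · have e : x = 2 * (x / 2) := by omega
            rw [e, mem_join_left]
            exact h7
          · have e : x = 2 * (x / 2) + 1 := by omega
            rw [e, mem_join_right]
            exact h4 _ h7
        · intro x hx
          rcases h3 x hx with ⟨h6, h7⟩ | ⟨h6, h7⟩
          · have e : x = 2 * (x / 2) := by omega
            rw [e, mem_join_left]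
            exact h7
          · have e : x = 2 * (x / 2) + 1 := by omega
            rw [e, mem_join_right]
            exact h5 _ h7
  · rintro ⟨Q, hQ, h⟩
    have h1 : REIn (join Z G) fun a : α => ∃ c : Cd, Q a c ∧ Ok G c := by
      refine REIn.ex (S := fun (a : α) (c : Cd) => Q a c ∧ Ok G c)
        (REIn.and (re_lift hQ dec_left) (re_lift ?_ dec_right))
      exact re_ok (by fun_prop)
    exact h1.of_eq fun a => (h a).symm

/-- The pair of relations decides `C` from `G`. -/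
def Dcd (C : Set ℕ) (Q : (ℕ → Cd → Prop) × (ℕ → Cd → Prop)) (G : Set ℕ) : Prop :=
  (∀ n, n ∈ C ↔ ∃ c, Q.1 n c ∧ Ok G c) ∧ ∀ n, n ∉ C ↔ ∃ c, Q.2 n c ∧ Ok G c

/-- the pairs of relations enumerable in `Z` -/
def Rq (Z : Set ℕ) : Set ((ℕ → Cd → Prop) × (ℕ → Cd → Prop)) :=
  {Q | REIn Z (fun x : ℕ × Cd => Q.1 x.1 x.2) ∧ REIn Z (fun x : ℕ × Cd => Q.2 x.1 x.2)}

theorem dec_join_iff {Z G C : Set ℕ} : Dec (join Z G) C ↔ ∃ Q ∈ Rq Z, Dcd C Q G := by
  constructor
  · rintro ⟨h1, h2⟩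
    obtain ⟨Q1, hQ1, e1⟩ := re_join_iff.1 h1
    obtain ⟨Q2, hQ2, e2⟩ := re_join_iff.1 h2
    exact ⟨(Q1, Q2), ⟨hQ1, hQ2⟩, e1, e2⟩
  · rintro ⟨Q, ⟨hQ1, hQ2⟩, e1, e2⟩
    exact ⟨re_join_iff.2 ⟨Q.1, hQ1, e1⟩, re_join_iff.2 ⟨Q.2, hQ2, e2⟩⟩

theorem countable_re (α : Type*) [Primcodable α] : {p : α → Prop | REPred p}.Countable := by
  let f : Nat.Partrec.Code → (α → Prop) := fun c a => (c.eval (encode a)).Dom
  refine (Set.countable_range f).mono ?_
  intro p hp
  obtain ⟨c, hc⟩ := Nat.Partrec.Code.exists_code.1 hp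
  refine ⟨c, ?_⟩
  funext a
  apply propext
  show (c.eval (encode a)).Dom ↔ p a
  rw [hc]
  simp [Part.assert]

theorem countable_rein (α : Type*) [Primcodable α] (Z : Set ℕ) :
    {p : α → Prop | REIn Z p}.Countable := by
  let f : (α × Cd → Prop) → (α → Prop) := fun R a => ∃ c, R (a, c) ∧ Ok Z c
  refine ((countable_re (α × Cd)).image f).mono ?_
  rintro p ⟨R, hR, h⟩
  exact ⟨fun x => R x.1 x.2, hR, funext fun a => propext (h a).symm⟩

theorem countable_rq (Z : Set ℕ) : (Rq Z).Countable := by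
  let f : (ℕ × Cd → Prop) × (ℕ × Cd → Prop) → (ℕ → Cd → Prop) × (ℕ → Cd → Prop) :=
    fun R => (fun n c => R.1 (n, c), fun n c => R.2 (n, c))
  refine (((countable_rein (ℕ × Cd) Z).prod (countable_rein (ℕ × Cd) Z)).image f).mono ?_
  rintro Q ⟨h1, h2⟩
  exact ⟨(fun x => Q.1 x.1 x.2, fun x => Q.2 x.1 x.2), ⟨h1, h2⟩, rfl⟩

theorem rq_nonempty (Z : Set ℕ) : (Rq Z).Nonempty :=
  ⟨(fun _ _ => True, fun _ _ => True), REIn.of_re (RE.const True), REIn.of_re (RE.const True)⟩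

/-! ### Classes -/

/-- the class of the sets which avoid the conditions in `T` -/
def cls (T : Cd → Prop) (B : Set ℕ) : Prop := ∀ c, T c → ¬ Ok B c

/-- the set of a sequence of bits -/
def st (β : ℕ → Bool) : Set ℕ := {n | β n = true}

theorem isClosed_cls (T : Cd → Prop) : IsClosed {β : ℕ → Bool | cls T (st β)} := by
  have h1 : {β : ℕ → Bool | cls T (st β)} = ⋂ c : Cd, ⋂ (_ : T c), {β | ¬ Ok (st β) c} := by
    ext β
    simp [cls]
  rw [h1]
  refine isClosed_iInter fun c => isClosed_iInter fun _ => ?_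
  rw [← isOpen_compl_iff]
  have h2 : {β : ℕ → Bool | ¬ Ok (st β) c}ᶜ =
      (⋂ x ∈ c.1.toFinset, {β : ℕ → Bool | β x = true}) ∩
        ⋂ x ∈ c.2.toFinset, {β : ℕ → Bool | β x = false} := by
    ext β
    simp [Ok, st]
  rw [h2]
  refine IsOpen.inter (isOpen_biInter_finset fun x _ => ?_) (isOpen_biInter_finset fun x _ => ?_)
  · have h3 : {β : ℕ → Bool | β x = true} = (fun β : ℕ → Bool => β x) ⁻¹' {true} := by
      ext β; simp
    rw [h3]
    exact (isOpen_discrete _).preimage (continuous_apply x)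
  · have h3 : {β : ℕ → Bool | β x = false} = (fun β : ℕ → Bool => β x) ⁻¹' {false} := by
      ext β; simp
    rw [h3]
    exact (isOpen_discrete _).preimage (continuous_apply x)

theorem nested {T : ℕ → Cd → Prop} (hT : ∀ n c, T n c → T (n + 1) c)
    (hne : ∀ n, ∃ B, cls (T n) B) : ∃ B, ∀ n, cls (T n) B := by
  classical
  obtain ⟨β, hβ⟩ := IsCompact.nonempty_iInter_of_sequence_nonempty_isCompact_isClosed
    (fun n => {β : ℕ → Bool | cls (T n) (st β)}) (fun n β hβ c hc => hβ c (hT n c hc))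
    (fun n => by
      obtain ⟨B, hB⟩ := hne n
      refine ⟨fun x => decide (x ∈ B), ?_⟩
      have : st (fun x => decide (x ∈ B)) = B := by ext x; simp [st]
      show cls (T n) (st _)
      rw [this]
      exact hB) (isClosed_cls _).isCompact (fun n => isClosed_cls _)
  rw [Set.mem_iInter] at hβ
  exact ⟨st β, hβ⟩

theorem empty_iff {T : Cd → Prop} : (¬ ∃ B, cls T B) ↔ ∃ m, ∀ j < 2 ^ m, ∃ c, T c ∧
    ((∀ x ∈ c.1, x < m) ∧ (∀ x ∈ c.2, x < m)) ∧ Ok (su j : Set ℕ) c := by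
  classical
  constructor
  · intro h
    by_contra hcon
    push Not at hcon
    refine h ?_
    obtain ⟨B, hB⟩ := nested (T := fun m c => T c ∧ ((∀ x ∈ c.1, x < m) ∧ (∀ x ∈ c.2, x < m)))
      (fun n c hc => ⟨hc.1, fun x hx => (hc.2.1 x hx).trans (Nat.lt_succ_self _),
        fun x hx => (hc.2.2 x hx).trans (Nat.lt_succ_self _)⟩)
      (fun m => by
        obtain ⟨j, _, hj⟩ := hcon m
        exact ⟨su j, fun c hc => hj c hc.1 hc.2⟩)
    refine ⟨B, fun c hc => ?_⟩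
    refine hB (c.1.sum + c.2.sum + 1) c ⟨hc, fun x hx => ?_, fun x hx => ?_⟩
    · have := List.single_le_sum (fun _ _ => Nat.zero_le _) x hx
      omega
    · have := List.single_le_sum (fun _ _ => Nat.zero_le _) x hx
      omega
  · rintro ⟨m, hm⟩ ⟨B, hB⟩
    let s : Finset ℕ := (Finset.range m).filter (· ∈ B)
    have h1 : cd s < 2 ^ m := cd_lt fun i hi => Finset.mem_range.1 (Finset.mem_filter.1 hi).1
    obtain ⟨c, hc, ⟨h2, h3⟩, h4, h5⟩ := hm (cd s) h1
    rw [su_cd] at h4 h5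
    refine hB c hc ⟨fun x hx => ?_, fun x hx hxB => ?_⟩
    · exact (Finset.mem_filter.1 (Finset.mem_coe.1 (h4 x hx))).2
    · exact h5 x hx (Finset.mem_coe.2 (Finset.mem_filter.2 ⟨Finset.mem_range.2 (h3 x hx), hxB⟩))

theorem re_empty_cls {W : Set ℕ} {T : ℕ → Cd → Prop} (hT : REIn W fun x : ℕ × Cd => T x.1 x.2) :
    REIn W fun n : ℕ => ¬ ∃ B, cls (T n) B := by
  refine REIn.of_eq ?_ fun n => empty_iff.symm
  refine REIn.ex (S := fun (n : ℕ) (m : ℕ) => ∀ j < 2 ^ m, ∃ c, T n c ∧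
    ((∀ x ∈ c.1, x < m) ∧ (∀ x ∈ c.2, x < m)) ∧ Ok (su j : Set ℕ) c) ?_
  refine REIn.all_lt (S := fun (y : ℕ × ℕ) (j : ℕ) => ∃ c, T y.1 c ∧
    ((∀ x ∈ c.1, x < y.2) ∧ (∀ x ∈ c.2, x < y.2)) ∧ Ok (su j : Set ℕ) c) ?_ (by fun_prop)
  refine REIn.ex (S := fun (y : (ℕ × ℕ) × ℕ) (c : Cd) => T y.1.1 c ∧
    ((∀ x ∈ c.1, x < y.1.2) ∧ (∀ x ∈ c.2, x < y.1.2)) ∧ Ok (su y.2 : Set ℕ) c) ?_
  refine REIn.and ?_ (REIn.of_re (RE.and (RE.and ?_ ?_) (RE.and ?_ ?_)))
  · exact hT.comp (f := fun y : ((ℕ × ℕ) × ℕ) × Cd => (y.1.1.1, y.2)) (by fun_prop)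
  · exact RE.all_mem (p := fun (y : ((ℕ × ℕ) × ℕ) × Cd) (x : ℕ) => x < y.1.1.2)
      (RE.lt (by fun_prop) (by fun_prop)) (by fun_prop)
  · exact RE.all_mem (p := fun (y : ((ℕ × ℕ) × ℕ) × Cd) (x : ℕ) => x < y.1.1.2)
      (RE.lt (by fun_prop) (by fun_prop)) (by fun_prop)
  · exact RE.all_mem (p := fun (y : ((ℕ × ℕ) × ℕ) × Cd) (x : ℕ) => x ∈ (su y.1.2 : Set ℕ))
      (re_mem_su (f := fun z : (((ℕ × ℕ) × ℕ) × Cd) × ℕ => z.1.1.2) (g := fun z => z.2)
        (by fun_prop) (by fun_prop)) (by fun_prop)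
  · exact RE.all_mem (p := fun (y : ((ℕ × ℕ) × ℕ) × Cd) (x : ℕ) => x ∉ (su y.1.2 : Set ℕ))
      (re_not_mem_su (f := fun z : (((ℕ × ℕ) × ℕ) × Cd) × ℕ => z.1.1.2) (g := fun z => z.2)
        (by fun_prop) (by fun_prop)) (by fun_prop)

/-- The cone avoidance basis theorem. -/
theorem basis {W C : Set ℕ} (hC : ¬ Dec W C) {R : Cd → Prop} (hR : REIn W R)
    (hne : ∃ B, cls R B) : ∃ B, cls R B ∧ ¬ Dec (join W B) C := by
  classical
  let St := {R : Cd → Prop // REIn W R ∧ ∃ B, cls R B}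
  have hstep : ∀ (Q : Rq W) (p : St), ∃ p' : St, (∀ c, p.1 c → p'.1 c) ∧
      ∀ B, cls p'.1 B → ¬ Dcd C Q.1 B := by
    rintro ⟨⟨Q1, Q0⟩, hQ1, hQ0⟩ ⟨R, hR, hne⟩
    simp only at hQ1 hQ0
    have hT : ∀ Q : ℕ → Cd → Prop, REIn W (fun x : ℕ × Cd => Q x.1 x.2) →
        REIn W fun x : ℕ × Cd => R x.2 ∨ Q x.1 x.2 := fun Q hQ =>
      REIn.or (hR.comp (f := fun x : ℕ × Cd => x.2) (by fun_prop)) hQ
    have hTn : ∀ Q : ℕ → Cd → Prop, REIn W (fun x : ℕ × Cd => Q x.1 x.2) → ∀ n,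
        REIn W fun c : Cd => R c ∨ Q n c := fun Q hQ n =>
      (hT Q hQ).comp (f := fun c : Cd => (n, c)) (by fun_prop)
    by_cases ha : ∃ n, n ∈ C ∧ ∃ B, cls (fun c => R c ∨ Q1 n c) B
    · obtain ⟨n, hn, hB⟩ := ha
      refine ⟨⟨fun c => R c ∨ Q1 n c, hTn Q1 hQ1 n, hB⟩, fun c hc => Or.inl hc, ?_⟩
      rintro B hB ⟨h1, -⟩
      obtain ⟨c, hc1, hc2⟩ := (h1 n).1 hn
      exact hB c (Or.inr hc1) hc2
    by_cases hb : ∃ n, n ∉ C ∧ ∃ B, cls (fun c => R c ∨ Q0 n c) B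
    · obtain ⟨n, hn, hB⟩ := hb
      refine ⟨⟨fun c => R c ∨ Q0 n c, hTn Q0 hQ0 n, hB⟩, fun c hc => Or.inl hc, ?_⟩
      rintro B hB ⟨-, h1⟩
      obtain ⟨c, hc1, hc2⟩ := (h1 n).1 hn
      exact hB c (Or.inr hc1) hc2
    push Not at ha hb
    refine ⟨⟨R, hR, hne⟩, fun c hc => hc, fun B hB hd => hC ?_⟩
    obtain ⟨h1, h0⟩ := hd
    constructor
    · refine (re_empty_cls (hT Q1 hQ1)).of_eq fun n => ⟨fun h => ?_, fun h ⟨B', hB'⟩ => ha n h B' hB'⟩
      by_contra hn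
      refine h ⟨B, fun c hc hok => ?_⟩
      rcases hc with hc | hc
      · exact hB c hc hok
      · exact hn ((h1 n).2 ⟨c, hc, hok⟩)
    · refine (re_empty_cls (hT Q0 hQ0)).of_eq fun n => ⟨fun h => ?_, fun h ⟨B', hB'⟩ => hb n h B' hB'⟩
      intro hn
      refine h ⟨B, fun c hc hok => ?_⟩
      rcases hc with hc | hc
      · exact hB c hc hok
      · exact (h0 n).2 ⟨c, hc, hok⟩ hn
  choose f hf1 hf2 using hstep
  have : Countable (Rq W) := countable_rq W
  have : Nonempty (Rq W) := (rq_nonempty W).to_subtype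
  obtain ⟨e, he⟩ := exists_surjective_nat (Rq W)
  let g : ℕ → St := fun n => Nat.rec ⟨R, hR, hne⟩ (fun n p => f (e n) p) n
  have hg : ∀ n, g (n + 1) = f (e n) (g n) := fun n => rfl
  obtain ⟨B, hB⟩ := nested (T := fun n => (g n).1) (fun n c hc => by
    simp only [hg]
    exact hf1 _ _ c hc) (fun n => (g n).2.2)
  refine ⟨B, hB 0, fun hd => ?_⟩
  obtain ⟨Q, hQ, hd⟩ := dec_join_iff.1 hd
  obtain ⟨n, hn⟩ := he ⟨Q, hQ⟩
  have h1 := hB (n + 1)
  simp only [hg] at h1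
  have h2 := hf2 (e n) (g n) B h1
  rw [hn] at h2
  exact h2 hd

end Pool.Agent.R603.HEP
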