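import Pool.Agent.R603.HEP.Word
import Pool.Agent.Y545.HM.Ideal

/-!
From Hindman's theorem for colourings by the two end positions to the increasing polarized
theorem for pairs.
-/

namespace Pool.Agent.R603.HEP

open Encodable Pool.Agent.Helper446 Pool.Agent.Helper446.Defs Pool.Agent.Helper446.Oracle
open Pool.Agent.Y545.HM

/-- Far disjoint sums from a solution. -/
theorem separated {C Y : Set ℕ} (hB : Dec C Y) {k : ℕ} {c : ℕ → Fin k} (hY : Sol c Y) :
    ∃ s : ℕ → ℕ, Gr C s ∧ (∀ n, 0 < s n) ∧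
      (∀ m n, m < n → ∃ M T, s n = 2 ^ M * T ∧ s m < 2 ^ M) ∧
      ∃ j, (∀ n, c (s n) = j) ∧ ∀ m n, m < n → c (s m + s n) = j := by
  classical
  obtain ⟨hYi, hY0, j, hYc⟩ := hY
  have htot : ∀ a, ∃ l, Rl (fun x => x) Y a l := by
    intro a
    obtain ⟨F, hF1, hF2, t, ht⟩ := exists_div hYi a (a + 1)
    refine ⟨F.toList, ?_, F.nodup_toList, fun x hx => (hF2 x (Finset.mem_toList.1 hx)).1,
      fun x hx => (hF2 x (Finset.mem_toList.1 hx)).2, a + 1, ⟨t, ?_⟩, Nat.lt_succ_self a⟩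
    · intro h1
      rw [Finset.toList_eq_nil] at h1
      exact hF1.ne_empty h1
    · rw [← ht, Finset.sum_toList]
  obtain ⟨f, hf, hfR⟩ := choice (re_rl (Gr.of_comp Computable.id) hB) htot
  let nx : ℕ → ℕ := fun a => a + (f a).sum
  have hnx : Gr C nx := (Gr.post (g := fun p : ℕ × List ℕ => p.1 + p.2.sum) (by fun_prop)
    ((Gr.of_comp Computable.id).pair hf)).of_eq fun a => rfl
  let av : ℕ → ℕ := fun n => nx^[n] 0
  have hav : Gr C av := Gr.iter hnx 0
  have hav_succ : ∀ n, av (n + 1) = av n + (f (av n)).sum := fun n =>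
    Function.iterate_succ_apply' nx n 0
  let s : ℕ → ℕ := fun n => (f (av n)).sum
  have hsgr : Gr C s := Gr.post (g := fun l : List ℕ => l.sum) (by fun_prop) (hf.comp hav)
  let Fs : ℕ → Finset ℕ := fun n => (f (av n)).toFinset
  have hs : ∀ n, s n = ∑ x ∈ Fs n, x := by
    intro n
    have h1 := List.sum_toFinset (fun x : ℕ => x) (hfR (av n)).2.1
    show (f (av n)).sum = _
    rw [h1]
    simp
  have hFY : ∀ n, ∀ x ∈ Fs n, x ∈ Y := fun n x hx => (hfR (av n)).2.2.1 x (List.mem_toFinset.1 hx)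
  have hFa : ∀ n, ∀ x ∈ Fs n, av n < x := fun n x hx =>
    (hfR (av n)).2.2.2.1 x (List.mem_toFinset.1 hx)
  have hFne : ∀ n, (Fs n).Nonempty := by
    intro n
    rw [List.toFinset_nonempty_iff]
    exact (hfR (av n)).1
  have hspos : ∀ n, 0 < s n := by
    intro n
    rw [hs]
    refine Finset.sum_pos (fun x hx => ?_) (hFne n)
    have := hFa n x hx
    omega
  have havmono : Monotone av := monotone_nat_of_le_succ fun n => by
    rw [hav_succ]; omega
  have hsav : ∀ m n, m < n → s m ≤ av n := by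
    intro m n hmn
    have h3 := havmono (show m + 1 ≤ n by omega)
    rw [hav_succ] at h3
    have h4 : s m = (f (av m)).sum := rfl
    omega
  have hdisj : ∀ i i', i < i' → Disjoint (Fs i) (Fs i') := by
    intro i i' hii
    rw [Finset.disjoint_left]
    intro x hx hx'
    have h1 := hFa i' x hx'
    have h2 : x ≤ s i := by
      rw [hs]
      exact Finset.single_le_sum (f := fun x => x) (fun _ _ => Nat.zero_le _) hx
    have := hsav i i' hii
    omega
  refine ⟨s, hsgr, hspos, ?_, j, fun n => ?_, fun m n hmn => ?_⟩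
  · intro m n hmn
    obtain ⟨M, ⟨t, ht⟩, hM⟩ := (hfR (av n)).2.2.2.2
    refine ⟨M, t, ht, ?_⟩
    have h1 := hsav m n hmn
    have h2 : M < 2 ^ M := Nat.lt_two_pow_self
    have h3 : av n < M := hM
    omega
  · rw [hs]
    exact hYc _ (fun x hx => hFY n x hx) (hFne n)
  · rw [hs, hs, ← Finset.sum_union (hdisj m n hmn)]
    refine hYc _ (fun x hx => ?_) ((hFne m).mono Finset.subset_union_left)
    rcases Finset.mem_union.1 (Finset.mem_coe.1 hx) with h | h
    · exact hFY m x h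
    · exact hFY n x h

/-- lowest position -/
def lo (n : ℕ) : ℕ := (n.bitIndices.head?).getD 0

/-- highest position -/
def hi (n : ℕ) : ℕ := (n.bitIndices.getLast?).getD 0

theorem lo_eq (l t : ℕ) : lo (2 ^ l * (2 * t + 1)) = l := by
  rw [lo, Nat.bitIndices_two_pow_mul, Nat.bitIndices_two_mul_add_one]
  simp

theorem getLast_log (n : ℕ) : n ≠ 0 → n.bitIndices.getLast? = some (Nat.log 2 n) := by
  induction n using Nat.strong_induction_on with
  | _ n ih =>
    intro hn
    rcases Nat.even_or_odd' n with ⟨m, rfl | rfl⟩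
    · have h1 : m ≠ 0 := by omega
      rw [Nat.bitIndices_two_mul, List.getLast?_map, ih m (by omega) h1]
      rw [Nat.log_of_one_lt_of_le (b := 2) (n := 2 * m) (by norm_num) (by omega)]
      rw [show 2 * m / 2 = m by omega]
      rfl
    · rcases Nat.eq_zero_or_pos m with rfl | h1
      · simp
      · rw [Nat.bitIndices_two_mul_add_one, List.getLast?_cons, List.getLast?_map,
          ih m (by omega) (by omega)]
        rw [Nat.log_of_one_lt_of_le (b := 2) (n := 2 * m + 1) (by norm_num) (by omega)]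
        rw [show (2 * m + 1) / 2 = m by omega]
        rfl

theorem hi_eq (n : ℕ) : hi n = Nat.log 2 n := by
  rcases Nat.eq_zero_or_pos n with rfl | h
  · simp [hi]
  · rw [hi, getLast_log n (by omega)]
    rfl

theorem pr_dvd2 : PrimrecRel fun n l : ℕ => 2 ^ l ∣ n := by
  have h1 : PrimrecRel fun n l : ℕ => n % 2 ^ l = 0 :=
    Primrec.eq.comp₂ (Primrec.nat_mod.comp₂ Primrec₂.left (pr_pow2.comp₂ Primrec₂.right))
      (Primrec₂.const 0)
  exact h1.of_eq fun n l => (Nat.dvd_iff_mod_eq_zero ..).symm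

theorem pr_hi : Primrec hi := by
  have h1 : PrimrecRel fun n l : ℕ => 2 ^ l ≤ n :=
    Primrec.nat_le.comp₂ (pr_pow2.comp₂ Primrec₂.right) Primrec₂.left
  have h2 := Primrec.nat_findGreatest Primrec.id h1
  refine h2.of_eq fun n => ?_
  rw [hi_eq]
  rcases Nat.eq_zero_or_pos n with rfl | h
  · simp
  · rw [Nat.findGreatest_eq_iff]
    refine ⟨Nat.log_le_self 2 n, fun _ => Nat.pow_log_le_self 2 (by omega), fun m hm _ => ?_⟩
    intro h3
    have := Nat.le_log_of_pow_le (b := 2) (by norm_num) h3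
    omega

theorem pr_lo : Primrec lo := by
  have h2 := Primrec.nat_findGreatest Primrec.id pr_dvd2
  refine h2.of_eq fun n => ?_
  rcases Nat.eq_zero_or_pos n with rfl | h
  · simp [lo]
  · obtain ⟨l, m, hm, rfl⟩ := Nat.exists_eq_two_pow_mul_odd (n := n) (by omega)
    obtain ⟨t, rfl⟩ := hm
    rw [lo_eq, Nat.findGreatest_eq_iff]
    refine ⟨?_, fun _ => Dvd.intro _ rfl, fun m hm _ => ?_⟩
    · have h3 : l < 2 ^ l := Nat.lt_two_pow_self
      have h4 : 2 ^ l * 1 ≤ 2 ^ l * (2 * t + 1) := Nat.mul_le_mul_left _ (by omega)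
      show l ≤ 2 ^ l * (2 * t + 1)
      omega
    · intro h3
      have h4 : 2 ^ (l + 1) ∣ 2 ^ l * (2 * t + 1) := (Nat.pow_dvd_pow 2 (by omega)).trans h3
      rw [pow_succ] at h4
      have h5 := Nat.dvd_of_mul_dvd_mul_left (by positivity) h4
      omega

/-- the pair of the end positions -/
def ep (n : ℕ) : ℕ := Nat.pair (lo n) (hi n)

theorem pr_ep : Primrec ep := Primrec₂.natPair.comp pr_lo pr_hi

theorem lo_hi_add {x y M T : ℕ} (hx : 0 < x) (hy : 0 < y) (h1 : y = 2 ^ M * T) (h2 : x < 2 ^ M) :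
    lo x < M ∧ hi x < M ∧ M ≤ lo y ∧ M ≤ hi y ∧ lo (x + y) = lo x ∧ hi (x + y) = hi y := by
  obtain ⟨l, o, ⟨t, rfl⟩, rfl⟩ := Nat.exists_eq_two_pow_mul_odd (n := x) (by omega)
  obtain ⟨l', o', ⟨t', rfl⟩, hy'⟩ := Nat.exists_eq_two_pow_mul_odd (n := y) (by omega)
  have h3 : l < M := by
    by_contra hcon
    have h4 : (2 : ℕ) ^ M ≤ 2 ^ l := Nat.pow_le_pow_right (by norm_num) (by omega)
    have h5 : 2 ^ l * 1 ≤ 2 ^ l * (2 * t + 1) := Nat.mul_le_mul_left _ (by omega)
    omega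
  have hyM : 2 ^ M ≤ y := by
    rw [h1]
    refine Nat.le_mul_of_pos_right _ ?_
    rcases Nat.eq_zero_or_pos T with h | h
    · rw [h] at h1; omega
    · exact h
  refine ⟨?_, ?_, ?_, ?_, ?_, ?_⟩
  · rw [lo_eq]; exact h3
  · rw [hi_eq]
    exact Nat.log_lt_of_lt_pow (by omega) h2
  · rw [hy', lo_eq]
    by_contra hcon
    have h4 : 2 ^ (l' + 1) ∣ 2 ^ l' * (2 * t' + 1) := by
      rw [← hy', h1]
      exact Dvd.dvd.mul_right (Nat.pow_dvd_pow 2 (by omega)) _
    rw [pow_succ] at h4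
    have h5 := Nat.dvd_of_mul_dvd_mul_left (by positivity) h4
    omega
  · rw [hi_eq]
    exact Nat.le_log_of_pow_le (by norm_num) hyM
  · rw [lo_eq]
    have h4 : 2 ^ l * (2 * t + 1) + y = 2 ^ l * (2 * (t + 2 ^ (M - l - 1) * T) + 1) := by
      have h5 : (2 : ℕ) ^ M = 2 ^ l * (2 * 2 ^ (M - l - 1)) := by
        rw [← pow_succ', ← pow_add]
        congr 1
        omega
      rw [h1, h5]
      ring
    rw [h4, lo_eq]
  · rw [hi_eq, hi_eq]
    have hu := Nat.pow_log_le_self 2 (show y ≠ 0 by omega)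
    have hu2 : y < 2 ^ (Nat.log 2 y + 1) := Nat.lt_pow_succ_log_self (b := 2) (by norm_num) y
    have hMu : M ≤ Nat.log 2 y := Nat.le_log_of_pow_le (by norm_num) hyM
    rw [Nat.log_eq_iff (Or.inr ⟨by norm_num, by omega⟩)]
    refine ⟨by omega, ?_⟩
    obtain ⟨d, hd⟩ : ∃ d, Nat.log 2 y + 1 = M + d := ⟨Nat.log 2 y + 1 - M, by omega⟩
    rw [hd] at hu2 ⊢
    rw [pow_add] at hu2 ⊢
    have h6 : T < 2 ^ d := by
      rw [h1] at hu2
      exact Nat.lt_of_mul_lt_mul_left hu2
    have h7 : 2 ^ M * (T + 1) ≤ 2 ^ M * 2 ^ d := Nat.mul_le_mul_left _ h6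
    rw [mul_add, ← h1] at h7
    omega

/-- The converse reduction. -/
theorem backward {k : ℕ} {f : ℕ → Fin k} {C Y : Set ℕ} (hB : Dec C Y)
    (hY : Sol (fun n => f (ep n)) Y) :
    ∃ U V : Set ℕ, Dec C U ∧ Dec C V ∧ U.Infinite ∧ V.Infinite ∧
      ∃ i, ∀ a ∈ U, ∀ b ∈ V, a < b → f (Nat.pair a b) = i := by
  obtain ⟨s, hs, hpos, hsep, j, h1, h2⟩ := separated hB hY
  have hmlo : StrictMono fun n => lo (s n) := by
    refine strictMono_nat_of_lt_succ fun n => ?_
    obtain ⟨M, T, e1, e2⟩ := hsep n (n + 1) (by omega)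
    have h3 := lo_hi_add (hpos n) (hpos (n + 1)) e1 e2
    show lo (s n) < lo (s (n + 1))
    omega
  have hmhi : StrictMono fun n => hi (s n) := by
    refine strictMono_nat_of_lt_succ fun n => ?_
    obtain ⟨M, T, e1, e2⟩ := hsep n (n + 1) (by omega)
    have h3 := lo_hi_add (hpos n) (hpos (n + 1)) e1 e2
    show hi (s n) < hi (s (n + 1))
    omega
  refine ⟨Set.range fun n => lo (s n), Set.range fun n => hi (s n),
    range_dec (Gr.post pr_lo.to_comp hs) hmlo, range_dec (Gr.post pr_hi.to_comp hs) hmhi,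
    Set.infinite_range_of_injective hmlo.injective,
    Set.infinite_range_of_injective hmhi.injective, j, ?_⟩
  rintro _ ⟨m, rfl⟩ _ ⟨n, rfl⟩ hmn
  simp only at hmn ⊢
  rcases Nat.lt_trichotomy m n with h | h | h
  · obtain ⟨M, T, e1, e2⟩ := hsep m n h
    have h3 := lo_hi_add (hpos m) (hpos n) e1 e2
    have h4 := h2 m n h
    simp only [ep] at h4
    rw [h3.2.2.2.2.1, h3.2.2.2.2.2] at h4
    exact h4
  · subst h
    exact h1 m
  · obtain ⟨M, T, e1, e2⟩ := hsep n m h
    have h3 := lo_hi_add (hpos n) (hpos m) e1 e2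
    omega

end Pool.Agent.R603.HEP
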