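import Pool.Agent.R603.HEP.Word
import Pool.Agent.Y545.HM.Ideal

/-!
From the increasing polarized theorem for pairs to Hindman's theorem for colourings by ends and
states.
-/

namespace Pool.Agent.R603.HEP

open Encodable Pool.Agent.Helper446 Pool.Agent.Helper446.Defs Pool.Agent.Helper446.Oracle
open Pool.Agent.Y545.HM

/-- The colour of a number `n` other than `0` depends only on the `r` lowest and the `r` highest
positions of nonzero binary digits of `n` and on the value of the word of the binary digits of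
`n`, beginning with the lowest, under the homomorphism `φ` to a monoid. -/
def Ends {k : ℕ} {M : Type} [Monoid M] (r : ℕ) (φ : ℕ → M) (c : ℕ → Fin k) : Prop :=
  ∀ m n, m ≠ 0 → n ≠ 0 → m.bitIndices.take r = n.bitIndices.take r →
    m.bitIndices.reverse.take r = n.bitIndices.reverse.take r →
    ((Nat.digits 2 m).map φ).prod = ((Nat.digits 2 n).map φ).prod → c m = c n

theorem val_pos : ∀ {l : List ℕ}, l ≠ [] → 0 < val l
  | [], h => absurd rfl h
  | g :: l, _ => by rw [val]; positivity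

theorem val_lt : ∀ l : List ℕ, val l < 2 ^ len l
  | [] => by simp [val, len]
  | g :: l => by
    have h1 := val_lt l
    rw [val, len, show g + 1 + len l = g + (len l + 1) by ring, pow_add 2 g]
    refine Nat.mul_lt_mul_of_pos_left ?_ (by positivity)
    rw [pow_succ]
    omega

theorem gl_ne (N t p : ℕ) (q : ℕ × ℕ) (L : List (ℕ × ℕ)) : gl N t p (q :: L) ≠ [] := by
  rw [gl, B]
  simp

section

variable {N t r D : ℕ} {k : ℕ} {M : Type} [Monoid M] {φ : ℕ → M} {c : ℕ → Fin k}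

theorem colour (hD : D * N = 2 * Q N t + N) (hN : 0 < N) (ht : N ∣ t + 1) (hr : r ≤ t + 1)
    (he : IsIdempotentElem (φ 0 ^ N)) (hy : IsIdempotentElem ((φ 0 ^ N * φ 1) ^ N))
    (hc : Ends r φ c) (q : ℕ × ℕ) (L : List (ℕ × ℕ)) (h : Ch D 0 (q :: L)) :
    c ((q :: L).map fun q => xx N t q.1 q.2).sum = c (xx N t q.1 (lb q.2 L)) := by
  have h' : Ch D 0 [(q.1, lb q.2 L)] := by
    obtain ⟨h1, h2, h3⟩ := h
    have := le_lb L q.2 h3
    exact ⟨h1, by show q.1 + D ≤ lb q.2 L; omega, trivial⟩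
  have e1 := sum_gl hD (q :: L) 0 h
  have e2 := sum_gl hD [(q.1, lb q.2 L)] 0 h'
  rw [zero_mul, pow_zero, one_mul] at e1 e2
  simp only [List.map_cons, List.map_nil, List.sum_cons, List.sum_nil, add_zero] at e2
  rw [e1, e2]
  refine hc _ _ (val_pos (gl_ne _ _ _ _ _)).ne' (val_pos (gl_ne _ _ _ _ _)).ne' ?_ ?_ ?_
  · rw [bitIndices_val, bitIndices_val, take_low q L hr, take_low _ [] hr]
  · rw [bitIndices_val, bitIndices_val, take_high hD q L hr h, take_high hD _ [] hr h']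
    rfl
  · have := wd_val φ (gl N t 0 (q :: L))
    have h2 := wd_val φ (gl N t 0 [(q.1, lb q.2 L)])
    unfold wd at this h2
    rw [this, h2, im_gl hD hN ht he hy L q 0 h, im_gl hD hN ht he hy [] _ 0 h']

theorem ch_map {a b : ℕ → ℕ} (hab : ∀ i, a i + D ≤ b i) (hba : ∀ i j, i < j → b i < a j) :
    ∀ (L : List ℕ) (p : ℕ), L.Pairwise (· < ·) → (∀ i ∈ L, p < a i) →
      Ch D p (L.map fun i => (a i, b i))
  | [], _, _, _ => trivial
  | i :: L, p, h1, h2 => by
    rw [List.pairwise_cons] at h1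
    exact ⟨h2 i List.mem_cons_self, hab i,
      ch_map hab hba L (b i) h1.2 fun j hj => hba i j (h1.1 j hj)⟩

theorem lb_map {a b : ℕ → ℕ} : ∀ (L : List ℕ) (i : ℕ), ∃ j, lb (b i)
    (L.map fun i => (a i, b i)) = b j
  | [], i => ⟨i, rfl⟩
  | i' :: L, i => by
    rw [List.map_cons, lb]
    exact lb_map L i'

theorem xx_pos (a b : ℕ) : 0 < xx N t a b :=
  Nat.mul_pos (val_pos (by simp)) (by positivity)

theorem xx_lt (hD : D * N = 2 * Q N t + N) {a b : ℕ} (h0 : 0 < a) (h : a + D ≤ b) :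
    xx N t a b < 2 ^ (b * N) := by
  have e1 := val_block (N := N) (t := t) hD (p := 0) (q := (a, b)) h0 h
  have e2 := len_block (N := N) (t := t) hD (p := 0) (q := (a, b)) h0 h
  rw [zero_mul, pow_zero, one_mul] at e1
  rw [zero_mul, zero_add] at e2
  have e3 := val_lt (B N t (((a, b).1 - 0) * N) ((a, b).2 * N - (a, b).1 * N - 2 * Q N t))
  rw [e1, e2] at e3
  exact e3

theorem le_xx (a b : ℕ) : 2 ^ (a * N) ≤ xx N t a b := by
  have h1 : 0 < R N t := val_pos (by simp)
  have h2 : 0 < 2 ^ (b * N - Q N t) := by positivity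
  unfold xx
  calc 2 ^ (a * N) ≤ 1 * (2 ^ (a * N) + 2 ^ (b * N - Q N t)) := by omega
    _ ≤ _ := Nat.mul_le_mul_right _ h1

end

/-- The reduction. -/
theorem forward {M : Type} [Monoid M] [Finite M] (φ : ℕ → M) (r : ℕ) :
    ∃ g : ℕ → ℕ, Primrec g ∧ ∀ (k : ℕ) (c : ℕ → Fin k), Ends r φ c → ∀ C U V : Set ℕ, Dec C U →
      Dec C V → U.Infinite → V.Infinite →
      (∃ i, ∀ a ∈ U, ∀ b ∈ V, a < b → c (g (Nat.pair a b)) = i) → ∃ X, Sol c X ∧ Dec C X := by
  classical
  obtain ⟨N, hN, hid⟩ := exists_idem (M := M)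
  obtain ⟨t, ht⟩ : ∃ t, t + 1 = N * (r + 1) :=
    ⟨N * (r + 1) - 1, Nat.sub_add_cancel (Nat.mul_pos hN (by omega))⟩
  have hr : r ≤ t + 1 := by
    rw [ht]
    nlinarith
  let D : ℕ := 2 * (r + 1) + 2 * t + 1
  have hD : D * N = 2 * Q N t + N := by
    have h1 : 2 * Q N t = 2 * (t + 1) + 2 * t * N := by rw [Q]; ring
    rw [h1, ht]
    show (2 * (r + 1) + 2 * t + 1) * N = _
    ring
  let g : ℕ → ℕ := fun n => xx N t n.unpair.1 n.unpair.2
  have hg : Primrec g := by
    have h1 : Primrec fun n : ℕ => n.unpair.1 := Primrec.fst.comp Primrec.unpair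
    have h2 : Primrec fun n : ℕ => n.unpair.2 := Primrec.snd.comp Primrec.unpair
    have h3 : Primrec fun n : ℕ => 2 ^ (n.unpair.1 * N) :=
      pr_pow2.comp (Primrec.nat_mul.comp h1 (Primrec.const N))
    have h4 : Primrec fun n : ℕ => 2 ^ (n.unpair.2 * N - Q N t) :=
      pr_pow2.comp (Primrec.nat_sub.comp (Primrec.nat_mul.comp h2 (Primrec.const N))
        (Primrec.const (Q N t)))
    exact Primrec.nat_mul.comp (Primrec.const (R N t)) (Primrec.nat_add.comp h3 h4)
  refine ⟨g, hg, ?_⟩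
  rintro k c hc C U V hU hV hUi hVi ⟨i, hi⟩
  have hgp : ∀ a b, g (Nat.pair a b) = xx N t a b := by
    intro a b
    show xx N t _ _ = _
    rw [Nat.unpair_pair]
  simp only [hgp] at hi
  -- the selection
  let Rr : ℕ → ℕ × ℕ → Prop := fun b q => (q.1 ∈ U ∧ q.2 ∈ V) ∧ (b < q.1 ∧ q.1 + D ≤ q.2)
  have hRr : REIn C fun x : ℕ × (ℕ × ℕ) => Rr x.1 x.2 := by
    refine REIn.and (REIn.and ?_ ?_) (REIn.and (REIn.of_re (RE.lt (by fun_prop) (by fun_prop)))
      (REIn.of_re (RE.le (by fun_prop) (by fun_prop))))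
    · exact hU.1.comp (f := fun x : ℕ × (ℕ × ℕ) => x.2.1) (by fun_prop)
    · exact hV.1.comp (f := fun x : ℕ × (ℕ × ℕ) => x.2.2) (by fun_prop)
  have htot : ∀ b, ∃ q, Rr b q := by
    intro b
    obtain ⟨a', h1, h2⟩ := hUi.exists_gt b
    obtain ⟨b', h3, h4⟩ := hVi.exists_gt (a' + D)
    exact ⟨(a', b'), ⟨h1, h3⟩, h2, h4.le⟩
  obtain ⟨f, hf, hfR⟩ := choice hRr htot
  let st : ℕ → ℕ × ℕ := fun j => (fun q : ℕ × ℕ => f q.2)^[j] (0, 0)
  have hst : Gr C st := Gr.iter (f := fun q : ℕ × ℕ => f q.2)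
    (hf.pre (g := fun q : ℕ × ℕ => q.2) (by fun_prop)) (0, 0)
  have hst_succ : ∀ j, st (j + 1) = f (st j).2 := fun j =>
    Function.iterate_succ_apply' (fun q : ℕ × ℕ => f q.2) j (0, 0)
  have hR1 : ∀ j, Rr (st j).2 (st (j + 1)) := by
    intro j
    rw [hst_succ]
    exact hfR _
  let a : ℕ → ℕ := fun j => (st (j + 1)).1
  let b : ℕ → ℕ := fun j => (st (j + 1)).2
  have haU : ∀ j, a j ∈ U := fun j => (hR1 j).1.1
  have hbV : ∀ j, b j ∈ V := fun j => (hR1 j).1.2
  have ha0 : ∀ j, 0 < a j := fun j => lt_of_le_of_lt (Nat.zero_le _) (hR1 j).2.1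
  have hab : ∀ j, a j + D ≤ b j := fun j => (hR1 j).2.2
  have hba1 : ∀ j, b j < a (j + 1) := fun j => (hR1 (j + 1)).2.1
  have hbmono : StrictMono b := strictMono_nat_of_lt_succ fun j => by
    have h1 := hba1 j
    have h2 := hab (j + 1)
    omega
  have hba : ∀ i j, i < j → b i < a j := by
    intro i j hij
    obtain ⟨j, rfl⟩ : ∃ j', j = j' + 1 := ⟨j - 1, by omega⟩
    exact lt_of_le_of_lt (hbmono.monotone (by omega)) (hba1 j)
  let x : ℕ → ℕ := fun j => xx N t (a j) (b j)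
  have hx : Gr C x := by
    have h1 : Computable fun q : ℕ × ℕ => xx N t q.1 q.2 := by
      have h2 : Computable fun q : ℕ × ℕ => g (Nat.pair q.1 q.2) :=
        hg.to_comp.comp (Computable₂.comp Primrec₂.natPair.to_comp Computable.fst Computable.snd)
      refine h2.of_eq fun q => hgp _ _
    exact Gr.post h1 (hst.pre (g := fun j : ℕ => j + 1) (by fun_prop))
  have hxmono : StrictMono x := by
    refine strictMono_nat_of_lt_succ fun j => ?_
    have h1 : x j < 2 ^ (b j * N) := xx_lt hD (ha0 j) (hab j)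
    have h2 : 2 ^ (a (j + 1) * N) ≤ x (j + 1) := le_xx _ _
    have h3 : (2 : ℕ) ^ (b j * N) ≤ 2 ^ (a (j + 1) * N) :=
      Nat.pow_le_pow_right (by norm_num) (Nat.mul_le_mul_right N (hba1 j).le)
    omega
  refine ⟨Set.range x, ⟨Set.infinite_range_of_injective hxmono.injective, ?_, i, ?_⟩,
    range_dec hx hxmono⟩
  · rintro ⟨j, hj⟩
    have : 0 < x j := xx_pos _ _
    omega
  · intro F hF hne
    rw [← Set.image_univ] at hF
    obtain ⟨G, -, rfl⟩ := Finset.subset_set_image_iff.1 hF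
    have hGne : G.Nonempty := Finset.image_nonempty.1 hne
    rw [Finset.sum_image (fun a _ b _ h => hxmono.injective h)]
    have h1 : ∑ j ∈ G, x j = (G.sort.map x).sum := by
      rw [← List.sum_toFinset x (Finset.sort_nodup G (· ≤ ·)), Finset.sort_toFinset]
    rw [h1]
    have h2 : G.sort.Pairwise (· < ·) := (Finset.sortedLT_sort G).pairwise
    have h3 : G.sort ≠ [] := by
      intro h4
      obtain ⟨z, hz⟩ := hGne
      rw [← Finset.mem_sort (· ≤ ·), h4] at hz
      simp at hz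
    obtain ⟨j, L, hL⟩ := List.exists_cons_of_ne_nil h3
    rw [hL] at h2 ⊢
    have h5 := ch_map hab hba (j :: L) 0 h2 fun i _ => ha0 i
    have h6 := colour hD hN (Dvd.intro _ ht.symm) hr (hid _) (hid _) hc (a j, b j)
      (L.map fun i => (a i, b i)) h5
    have h7 : ((a j, b j) :: L.map fun i => (a i, b i)).map (fun q => xx N t q.1 q.2) =
        (j :: L).map x := by
      simp [x, Function.comp_def]
    rw [h7] at h6
    rw [h6]
    obtain ⟨j', hj'⟩ := lb_map (a := a) (b := b) L j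
    have h8 := le_lb _ _ h5.2.2
    show c (xx N t (a j) (lb (b j) (L.map fun i => (a i, b i)))) = i
    have h8' : b j ≤ lb (b j) (L.map fun i => (a i, b i)) := h8
    rw [hj'] at h8' ⊢
    refine hi _ (haU j) _ (hbV j') ?_
    have := hab j
    have hD0 : 0 < D := by
      show 0 < 2 * (r + 1) + 2 * t + 1
      omega
    omega

end Pool.Agent.R603.HEP
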