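import Pool.Agent.R603.HEP.Avoid

/-!
Cone avoidance for cohesive sets and for the pigeonhole principle.
-/

namespace Pool.Agent.R603.HEP

open Encodable Pool.Agent.Helper446 Pool.Agent.Helper446.Defs Pool.Agent.Helper446.Oracle
open Pool.Agent.Y545.HM

/-- the set of the entries of a list -/
def sl (l : List ℕ) : Set ℕ := {x | x ∈ l}

/-- `n` is enumerated by the relation from the finite set `l` -/
def Hl (Q : ℕ → Cd → Prop) (n : ℕ) (l : List ℕ) : Prop := ∃ c, Q n c ∧ Ok (sl l) c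

theorem re_Hl {Z : Set ℕ} {Q : ℕ → Cd → Prop} (hQ : REIn Z fun x : ℕ × Cd => Q x.1 x.2) :
    REIn Z fun x : ℕ × List ℕ => Hl Q x.1 x.2 := by
  refine REIn.ex (S := fun (y : ℕ × List ℕ) (c : Cd) => Q y.1 c ∧ Ok (sl y.2) c) ?_
  refine REIn.and ?_ (REIn.of_re (RE.and ?_ ?_))
  · exact hQ.comp (f := fun y : (ℕ × List ℕ) × Cd => (y.1.1, y.2)) (by fun_prop)
  · exact RE.all_mem (p := fun (y : (ℕ × List ℕ) × Cd) (x : ℕ) => x ∈ y.1.2)
      (RE.mem_list (by fun_prop) (by fun_prop)) (by fun_prop)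
  · exact RE.all_mem (p := fun (y : (ℕ × List ℕ) × Cd) (x : ℕ) => x ∉ y.1.2)
      (RE.not_mem_list (by fun_prop) (by fun_prop)) (by fun_prop)

/-- `G` obeys the condition `(F, X)` -/
def Ob (F : List ℕ) (X G : Set ℕ) : Prop := (∀ x ∈ F, x ∈ G) ∧ ∀ x ∈ G, x ∈ F ∨ x ∈ X

/-- a split of the relations in `B` -/
def Sp2 (Q : (ℕ → Cd → Prop) × (ℕ → Cd → Prop)) (F : List ℕ) (B : Set ℕ) : Prop :=
  ∃ (E E' : List ℕ) (n : ℕ), (∀ x ∈ E, x ∈ B) ∧ (∀ x ∈ E', x ∈ B) ∧ Hl Q.1 n (F ++ E) ∧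
    Hl Q.2 n (F ++ E')

theorem ex_list {F : List ℕ} {X G : Set ℕ} (hG : Ob F X G) {c : Cd} (hc : Ok G c) :
    ∃ E : List ℕ, (∀ x ∈ E, x ∈ X) ∧ Ok (sl (F ++ E)) c := by
  classical
  refine ⟨c.1.filter (· ∈ X), fun x hx => ?_, fun x hx => ?_, fun x hx hx' => ?_⟩
  · simpa using (List.mem_filter.1 hx).2
  · rcases hG.2 x (hc.1 x hx) with h | h
    · exact List.mem_append.2 (Or.inl h)
    · exact List.mem_append.2 (Or.inr (List.mem_filter.2 ⟨hx, by simpa using h⟩))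
  · rcases List.mem_append.1 hx' with h | h
    · exact hc.2 x hx (hG.1 x h)
    · exact hc.2 x hx (hc.1 x (List.mem_filter.1 h).1)

/-- Without splits nothing is decided. -/
theorem nosplit {Z X C : Set ℕ} (hC : ¬ Dec (join Z X) C)
    {Q : (ℕ → Cd → Prop) × (ℕ → Cd → Prop)} (hQ : Q ∈ Rq Z) {F : List ℕ} (hn : ¬ Sp2 Q F X)
    {G : Set ℕ} (hG : Ob F X G) : ¬ Dcd C Q G := by
  rintro ⟨h1, h0⟩
  apply hC
  have hre : ∀ P : ℕ → Cd → Prop, REIn Z (fun x : ℕ × Cd => P x.1 x.2) →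
      REIn (join Z X) fun n : ℕ => ∃ E : List ℕ, (∀ x ∈ E, x ∈ X) ∧ Hl P n (F ++ E) := by
    intro P hP
    refine REIn.ex (S := fun (n : ℕ) (E : List ℕ) => (∀ x ∈ E, x ∈ X) ∧ Hl P n (F ++ E))
      (REIn.and (re_lift ?_ dec_right) (re_lift ?_ dec_left))
    · exact REIn.all_mem (S := fun (_ : ℕ × List ℕ) (x : ℕ) => x ∈ X)
        (REIn.mem (by fun_prop)) (by fun_prop)
    · exact (re_Hl hP).comp (f := fun y : ℕ × List ℕ => (y.1, F ++ y.2)) (by fun_prop)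
  have e1 : ∀ n, n ∈ C → ∃ E : List ℕ, (∀ x ∈ E, x ∈ X) ∧ Hl Q.1 n (F ++ E) := by
    intro n hn
    obtain ⟨c, hc1, hc2⟩ := (h1 n).1 hn
    obtain ⟨E, hE1, hE2⟩ := ex_list hG hc2
    exact ⟨E, hE1, c, hc1, hE2⟩
  have e0 : ∀ n, n ∉ C → ∃ E : List ℕ, (∀ x ∈ E, x ∈ X) ∧ Hl Q.2 n (F ++ E) := by
    intro n hn
    obtain ⟨c, hc1, hc2⟩ := (h0 n).1 hn
    obtain ⟨E, hE1, hE2⟩ := ex_list hG hc2
    exact ⟨E, hE1, c, hc1, hE2⟩
  constructor
  · refine (hre Q.1 hQ.1).of_eq fun n => ⟨fun ⟨E, hE1, hE2⟩ => ?_, e1 n⟩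
    by_contra hcon
    obtain ⟨E', hE3, hE4⟩ := e0 n hcon
    exact hn ⟨E, E', n, hE1, hE3, hE2, hE4⟩
  · refine (hre Q.2 hQ.2).of_eq fun n => ⟨fun ⟨E, hE1, hE2⟩ => ?_, e0 n⟩
    intro hcon
    obtain ⟨E', hE3, hE4⟩ := e1 n hcon
    exact hn ⟨E', E, n, hE3, hE1, hE4, hE2⟩

/-- A wrong value is kept. -/
theorem wrong {C : Set ℕ} {Q : (ℕ → Cd → Prop) × (ℕ → Cd → Prop)} {l : List ℕ} {n : ℕ}
    (h : (Hl Q.1 n l ∧ n ∉ C) ∨ (Hl Q.2 n l ∧ n ∈ C)) :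
    ∃ m, ∀ X G : Set ℕ, (∀ x ∈ X, m < x) → Ob l X G → ¬ Dcd C Q G := by
  have key : ∀ c : Cd, Ok (sl l) c → ∃ m, ∀ X G : Set ℕ, (∀ x ∈ X, m < x) → Ob l X G → Ok G c := by
    intro c hc
    refine ⟨c.2.sum, fun X G hX hG => ⟨fun x hx => hG.1 x (hc.1 x hx), fun x hx hxG => ?_⟩⟩
    rcases hG.2 x hxG with h | h
    · exact hc.2 x hx h
    · have h1 := hX x h
      have h2 := List.single_le_sum (fun _ _ => Nat.zero_le _) x hx
      omega
  rcases h with ⟨⟨c, hc1, hc2⟩, hn⟩ | ⟨⟨c, hc1, hc2⟩, hn⟩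
  · obtain ⟨m, hm⟩ := key c hc2
    exact ⟨m, fun X G hX hG hd => hn ((hd.1 n).2 ⟨c, hc1, hm X G hX hG⟩)⟩
  · obtain ⟨m, hm⟩ := key c hc2
    exact ⟨m, fun X G hX hG hd => (hd.2 n).2 ⟨c, hc1, hm X G hX hG⟩ hn⟩

/-- the part of `X` above `m` -/
def ab (X : Set ℕ) (m : ℕ) : Set ℕ := {x | x ∈ X ∧ m < x}

theorem ab_inf {X : Set ℕ} (h : X.Infinite) (m : ℕ) : (ab X m).Infinite := by
  intro hf
  apply h
  refine (hf.union (Set.finite_Iic m)).subset fun y hy => ?_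
  by_cases h2 : m < y
  · exact Or.inl ⟨hy, h2⟩
  · exact Or.inr (by simpa using h2)

theorem dec_ab (X : Set ℕ) (m : ℕ) : Dec X (ab X m) := by
  constructor
  · exact REIn.and (REIn.mem Computable.id) (REIn.of_re (RE.lt (by fun_prop) (by fun_prop)))
  · refine REIn.of_eq (REIn.or (REIn.not_mem Computable.id) (REIn.of_re
      (RE.le (f := fun n : ℕ => n) (g := fun _ => m) (by fun_prop) (by fun_prop)))) fun n => ?_
    simp only [ab, Set.mem_setOf_eq, not_and_or, not_lt, id]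

theorem dec_right_of {Z X X' : Set ℕ} (h : Dec (join Z X) X') : Dec (join Z X) (join Z X') :=
  dec_join dec_left h

theorem nd_of {Z X X' C : Set ℕ} (hC : ¬ Dec (join Z X) C) (h : Dec (join Z X) X') :
    ¬ Dec (join Z X') C := fun h1 => hC (h1.trans (dec_right_of h))

theorem nd_ab {Z X C : Set ℕ} (hC : ¬ Dec (join Z X) C) (m : ℕ) : ¬ Dec (join Z (ab X m)) C :=
  nd_of hC ((dec_ab X m).trans dec_right)

/-- The step for a requirement, one set. -/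
theorem step1 {Z X C : Set ℕ} (hX : X.Infinite) (hC : ¬ Dec (join Z X) C)
    {Q : (ℕ → Cd → Prop) × (ℕ → Cd → Prop)} (hQ : Q ∈ Rq Z) (F : List ℕ) :
    ∃ (E : List ℕ) (m : ℕ), (∀ x ∈ E, x ∈ X) ∧ ∀ G, Ob (F ++ E) (ab X m) G → ¬ Dcd C Q G := by
  by_cases h : Sp2 Q F X
  · obtain ⟨E, E', n, h1, h2, h3, h4⟩ := h
    by_cases hn : n ∈ C
    · obtain ⟨m, hm⟩ := wrong (C := C) (Q := Q) (Or.inr ⟨h4, hn⟩)
      exact ⟨E', m, h2, fun G hG => hm _ G (fun x hx => hx.2) hG⟩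
    · obtain ⟨m, hm⟩ := wrong (C := C) (Q := Q) (Or.inl ⟨h3, hn⟩)
      exact ⟨E, m, h1, fun G hG => hm _ G (fun x hx => hx.2) hG⟩
  · refine ⟨[], 0, fun x hx => by simp at hx, fun G hG => ?_⟩
    rw [List.append_nil] at hG
    exact nosplit hC hQ h ⟨hG.1, fun x hx => (hG.2 x hx).imp_right fun h => h.1⟩

/-- The step for a requirement, two sets. -/
theorem step2 {Z X C A : Set ℕ} (hX : X.Infinite) (hC : ¬ Dec (join Z X) C)
    {Q Q' : (ℕ → Cd → Prop) × (ℕ → Cd → Prop)} (hQ : Q ∈ Rq Z) (hQ' : Q' ∈ Rq Z)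
    (F F' : List ℕ) :
    ∃ (E E' : List ℕ) (X' : Set ℕ), X'.Infinite ∧ X' ⊆ X ∧ ¬ Dec (join Z X') C ∧
      (∀ x ∈ E, x ∈ X ∩ A) ∧ (∀ x ∈ E', x ∈ X \ A) ∧
      ((∀ G, Ob (F ++ E) X' G → ¬ Dcd C Q G) ∨ ∀ G, Ob (F' ++ E') X' G → ¬ Dcd C Q' G) := by
  classical
  by_cases h : ∃ B : Set ℕ, ¬ Sp2 Q F (X ∩ B) ∧ ¬ Sp2 Q' F' (X \ B)
  · -- the class
    let R : Cd → Prop := fun c =>
      (∃ y : (List ℕ × List ℕ) × ℕ, ((∀ x ∈ y.1.1, x ∈ X) ∧ (∀ x ∈ y.1.2, x ∈ X)) ∧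
        ((∀ x ∈ y.1.1, x ∈ c.1) ∧ (∀ x ∈ y.1.2, x ∈ c.1)) ∧
        Hl Q.1 y.2 (F ++ y.1.1) ∧ Hl Q.2 y.2 (F ++ y.1.2)) ∨
      ∃ y : (List ℕ × List ℕ) × ℕ, ((∀ x ∈ y.1.1, x ∈ X) ∧ (∀ x ∈ y.1.2, x ∈ X)) ∧
        ((∀ x ∈ y.1.1, x ∈ c.2) ∧ (∀ x ∈ y.1.2, x ∈ c.2)) ∧
        Hl Q'.1 y.2 (F' ++ y.1.1) ∧ Hl Q'.2 y.2 (F' ++ y.1.2)
    have hR : REIn (join Z X) R := by
      have hx : REIn (join Z X) fun z : Cd × ((List ℕ × List ℕ) × ℕ) =>
          (∀ x ∈ z.2.1.1, x ∈ X) ∧ (∀ x ∈ z.2.1.2, x ∈ X) := by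
        refine re_lift (REIn.and ?_ ?_) dec_right
        · exact REIn.all_mem (S := fun (_ : Cd × ((List ℕ × List ℕ) × ℕ)) (x : ℕ) => x ∈ X)
            (REIn.mem (by fun_prop)) (by fun_prop)
        · exact REIn.all_mem (S := fun (_ : Cd × ((List ℕ × List ℕ) × ℕ)) (x : ℕ) => x ∈ X)
            (REIn.mem (by fun_prop)) (by fun_prop)
      have hs : ∀ g : Cd × ((List ℕ × List ℕ) × ℕ) → List ℕ, Computable g →
          REPred fun z : Cd × ((List ℕ × List ℕ) × ℕ) =>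
          (∀ x ∈ z.2.1.1, x ∈ g z) ∧ (∀ x ∈ z.2.1.2, x ∈ g z) := by
        intro g hg
        refine RE.and ?_ ?_
        · refine RE.all_mem (p := fun (z : Cd × ((List ℕ × List ℕ) × ℕ)) (x : ℕ) => x ∈ g z)
            (RE.mem_list (by fun_prop) ?_) (by fun_prop)
          exact hg.comp Computable.fst
        · refine RE.all_mem (p := fun (z : Cd × ((List ℕ × List ℕ) × ℕ)) (x : ℕ) => x ∈ g z)
            (RE.mem_list (by fun_prop) ?_) (by fun_prop)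
          exact hg.comp Computable.fst
      have hh : ∀ (P : (ℕ → Cd → Prop) × (ℕ → Cd → Prop)), P ∈ Rq Z → ∀ L : List ℕ,
          REIn (join Z X) fun z : Cd × ((List ℕ × List ℕ) × ℕ) =>
            Hl P.1 z.2.2 (L ++ z.2.1.1) ∧ Hl P.2 z.2.2 (L ++ z.2.1.2) := by
        intro P hP L
        refine re_lift (REIn.and ?_ ?_) dec_left
        · exact (re_Hl hP.1).comp (f := fun z : Cd × ((List ℕ × List ℕ) × ℕ) =>
            (z.2.2, L ++ z.2.1.1)) (by fun_prop)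
        · exact (re_Hl hP.2).comp (f := fun z : Cd × ((List ℕ × List ℕ) × ℕ) =>
            (z.2.2, L ++ z.2.1.2)) (by fun_prop)
      refine REIn.or ?_ ?_
      · refine REIn.ex (S := fun (c : Cd) (y : (List ℕ × List ℕ) × ℕ) =>
          ((∀ x ∈ y.1.1, x ∈ X) ∧ (∀ x ∈ y.1.2, x ∈ X)) ∧
          ((∀ x ∈ y.1.1, x ∈ c.1) ∧ (∀ x ∈ y.1.2, x ∈ c.1)) ∧
          Hl Q.1 y.2 (F ++ y.1.1) ∧ Hl Q.2 y.2 (F ++ y.1.2)) ?_
        exact REIn.and hx (REIn.and (REIn.of_re (hs (fun z => z.1.1) (by fun_prop))) (hh Q hQ F))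
      · refine REIn.ex (S := fun (c : Cd) (y : (List ℕ × List ℕ) × ℕ) =>
          ((∀ x ∈ y.1.1, x ∈ X) ∧ (∀ x ∈ y.1.2, x ∈ X)) ∧
          ((∀ x ∈ y.1.1, x ∈ c.2) ∧ (∀ x ∈ y.1.2, x ∈ c.2)) ∧
          Hl Q'.1 y.2 (F' ++ y.1.1) ∧ Hl Q'.2 y.2 (F' ++ y.1.2)) ?_
        exact REIn.and hx (REIn.and (REIn.of_re (hs (fun z => z.1.2) (by fun_prop))) (hh Q' hQ' F'))
    have hcls : ∀ B : Set ℕ, cls R B ↔ ¬ Sp2 Q F (X ∩ B) ∧ ¬ Sp2 Q' F' (X \ B) := by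
      intro B
      constructor
      · intro hB
        constructor
        · rintro ⟨E, E', n, h1, h2, h3, h4⟩
          refine hB (E ++ E', []) (Or.inl ⟨((E, E'), n), ⟨fun x hx => (h1 x hx).1,
            fun x hx => (h2 x hx).1⟩, ⟨fun x hx => List.mem_append.2 (Or.inl hx),
            fun x hx => List.mem_append.2 (Or.inr hx)⟩, h3, h4⟩) ⟨fun x hx => ?_, fun x hx => ?_⟩
          · rcases List.mem_append.1 hx with h | h
            · exact (h1 x h).2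
            · exact (h2 x h).2
          · simp at hx
        · rintro ⟨E, E', n, h1, h2, h3, h4⟩
          refine hB ([], E ++ E') (Or.inr ⟨((E, E'), n), ⟨fun x hx => (h1 x hx).1,
            fun x hx => (h2 x hx).1⟩, ⟨fun x hx => List.mem_append.2 (Or.inl hx),
            fun x hx => List.mem_append.2 (Or.inr hx)⟩, h3, h4⟩) ⟨fun x hx => ?_, fun x hx => ?_⟩
          · simp at hx
          · rcases List.mem_append.1 hx with h | h
            · exact (h1 x h).2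
            · exact (h2 x h).2
      · rintro ⟨hn1, hn2⟩ c (⟨y, ⟨h1, h2⟩, ⟨h3, h4⟩, h5, h6⟩ | ⟨y, ⟨h1, h2⟩, ⟨h3, h4⟩, h5, h6⟩) hc
        · exact hn1 ⟨y.1.1, y.1.2, y.2, fun x hx => ⟨h1 x hx, hc.1 x (h3 x hx)⟩,
            fun x hx => ⟨h2 x hx, hc.1 x (h4 x hx)⟩, h5, h6⟩
        · exact hn2 ⟨y.1.1, y.1.2, y.2, fun x hx => ⟨h1 x hx, hc.2 x (h3 x hx)⟩,
            fun x hx => ⟨h2 x hx, hc.2 x (h4 x hx)⟩, h5, h6⟩
    obtain ⟨B0, hB0⟩ := h
    obtain ⟨B, hB, hBC⟩ := basis hC hR ⟨B0, (hcls B0).2 hB0⟩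
    rw [hcls] at hB
    have hdec : ∀ X' : Set ℕ, Dec (join (join Z X) B) X' → ¬ Dec (join Z X') C := fun X' h1 h2 =>
      hBC (h2.trans (dec_join (dec_left.trans dec_left) h1))
    have hXd : Dec (join (join Z X) B) X := dec_right.trans dec_left
    have hBd : Dec (join (join Z X) B) B := dec_right
    by_cases hi : (X ∩ B).Infinite
    · have h1 : ¬ Dec (join Z (X ∩ B)) C := by
        refine hdec _ ⟨REIn.and hXd.1 hBd.1, REIn.of_eq (REIn.or hXd.2 hBd.2) fun n => ?_⟩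
        simp only [Set.mem_inter_iff, not_and_or]
      refine ⟨[], [], X ∩ B, hi, Set.inter_subset_left, h1, fun x hx => by simp at hx,
        fun x hx => by simp at hx, Or.inl fun G hG => ?_⟩
      rw [List.append_nil] at hG
      exact nosplit h1 hQ hB.1 hG
    · have hi2 : (X \ B).Infinite := by
        intro hf
        rw [Set.not_infinite] at hi
        apply hX
        rw [← Set.inter_union_diff X B]
        exact hi.union hf
      have h1 : ¬ Dec (join Z (X \ B)) C := by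
        refine hdec _ ⟨REIn.and hXd.1 hBd.2, REIn.of_eq (REIn.or hXd.2 hBd.1) fun n => ?_⟩
        simp only [Set.mem_diff, not_and_or, not_not]
      refine ⟨[], [], X \ B, hi2, Set.diff_subset, h1, fun x hx => by simp at hx,
        fun x hx => by simp at hx, Or.inr fun G hG => ?_⟩
      rw [List.append_nil] at hG
      exact nosplit h1 hQ' hB.2 hG
  · have h2 : Sp2 Q F (X ∩ A) ∨ Sp2 Q' F' (X \ A) := by
      by_contra hcon
      rw [not_or] at hcon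
      exact h ⟨A, hcon⟩
    rcases h2 with ⟨E, E', n, h1, h2, h3, h4⟩ | ⟨E, E', n, h1, h2, h3, h4⟩
    · by_cases hn : n ∈ C
      · obtain ⟨m, hm⟩ := wrong (C := C) (Q := Q) (Or.inr ⟨h4, hn⟩)
        exact ⟨E', [], ab X m, ab_inf hX m, fun x hx => hx.1, nd_ab hC m, h2,
          fun x hx => by simp at hx, Or.inl fun G hG => hm _ G (fun x hx => hx.2) hG⟩
      · obtain ⟨m, hm⟩ := wrong (C := C) (Q := Q) (Or.inl ⟨h3, hn⟩)
        exact ⟨E, [], ab X m, ab_inf hX m, fun x hx => hx.1, nd_ab hC m, h1,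
          fun x hx => by simp at hx, Or.inl fun G hG => hm _ G (fun x hx => hx.2) hG⟩
    · by_cases hn : n ∈ C
      · obtain ⟨m, hm⟩ := wrong (C := C) (Q := Q') (Or.inr ⟨h4, hn⟩)
        exact ⟨[], E', ab X m, ab_inf hX m, fun x hx => hx.1, nd_ab hC m,
          fun x hx => by simp at hx, h2, Or.inr fun G hG => hm _ G (fun x hx => hx.2) hG⟩
      · obtain ⟨m, hm⟩ := wrong (C := C) (Q := Q') (Or.inl ⟨h3, hn⟩)
        exact ⟨[], E, ab X m, ab_inf hX m, fun x hx => hx.1, nd_ab hC m,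
          fun x hx => by simp at hx, h1, Or.inr fun G hG => hm _ G (fun x hx => hx.2) hG⟩

end Pool.Agent.R603.HEP
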