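import Pool.Agent.R603.HEP.Seq
import Pool.Agent.Y545.HM.St

/-!
A Turing ideal which does not contain a given noncomputable set and in which the increasing
polarized theorem for pairs holds.
-/

namespace Pool.Agent.R603.HEP

open Encodable Pool.Agent.Helper446 Pool.Agent.Helper446.Defs Pool.Agent.Helper446.Oracle
open Pool.Agent.Y545.HM

/-- Cone avoidance for the increasing polarized theorem for pairs. -/
theorem ipt_step {W C : Set ℕ} (hC : ¬ Dec W C) {k : ℕ} {c : ℕ → Fin k} (hc : Gr W c) :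
    ∃ W' : Set ℕ, Dec W' W ∧ ¬ Dec W' C ∧ ∃ U V : Set ℕ, Dec W' U ∧ Dec W' V ∧ U.Infinite ∧
      V.Infinite ∧ ∃ i, ∀ a ∈ U, ∀ b ∈ V, a < b → c (Nat.pair a b) = i := by
  classical
  obtain ⟨P, hP, hPC, hlim⟩ := coh hC hc
  choose p hp using hlim
  have h1 : ¬ Dec (join (join W P) Set.univ) C := fun h => hPC (h.trans dec_univ)
  obtain ⟨U0, i, hU0, hUi, hUC⟩ := rtk (Z := join W P) p Finset.univ Set.univ Set.infinite_univ h1
    fun x _ => Finset.mem_univ _
  have dU : Dec (join (join W P) U0) U0 := dec_right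
  have dW : Dec (join (join W P) U0) W := dec_left.trans dec_left
  have dP : Dec (join (join W P) U0) P := dec_right.trans dec_left
  have hc' : Gr (join (join W P) U0) c := hc.lift dW
  generalize hW' : join (join W P) U0 = W' at hUC dU dW dP hc'
  let R : List ℕ × ℕ → ℕ × ℕ → Prop := fun s q => (∃ a ∈ s.1, a ∉ U0) ∨
    ((q.1 ∈ U0 ∧ q.2 ∈ P) ∧ (s.2 < q.1 ∧ q.1 < q.2) ∧
      ∀ a ∈ q.1 :: s.1, c (Nat.pair a q.2) = i)
  have hR : REIn W' fun x : (List ℕ × ℕ) × (ℕ × ℕ) => R x.1 x.2 := by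
    refine REIn.or ?_ (REIn.and (REIn.and ?_ ?_) (REIn.and (REIn.of_re (RE.and
      (RE.lt (by fun_prop) (by fun_prop)) (RE.lt (by fun_prop) (by fun_prop)))) ?_))
    · refine re_ex_mem (S := fun (_ : (List ℕ × ℕ) × (ℕ × ℕ)) (a : ℕ) => a ∉ U0)
        (l := fun x => x.1.1) ?_ (by fun_prop)
      exact dU.2.comp (f := fun y : ((List ℕ × ℕ) × (ℕ × ℕ)) × ℕ => y.2) (by fun_prop)
    · exact dU.1.comp (f := fun y : (List ℕ × ℕ) × (ℕ × ℕ) => y.2.1) (by fun_prop)
    · exact dP.1.comp (f := fun y : (List ℕ × ℕ) × (ℕ × ℕ) => y.2.2) (by fun_prop)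
    · refine REIn.all_mem (S := fun (y : (List ℕ × ℕ) × (ℕ × ℕ)) (a : ℕ) =>
        c (Nat.pair a y.2.2) = i) (l := fun y => y.2.1 :: y.1.1) ?_ (by fun_prop)
      refine re_gr (S := fun j : Fin k => j = i) (REIn.of_re (RE.eq (by fun_prop) (by fun_prop)))
        (f := fun y : ((List ℕ × ℕ) × (ℕ × ℕ)) × ℕ => c (Nat.pair y.2 y.1.2.2)) ?_
      refine hc'.pre (g := fun y : ((List ℕ × ℕ) × (ℕ × ℕ)) × ℕ => Nat.pair y.2 y.1.2.2) ?_
      exact Computable₂.comp Primrec₂.natPair.to_comp (by fun_prop) (by fun_prop)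
  have htot : ∀ s, ∃ q, R s q := by
    intro s
    by_cases h : ∃ a ∈ s.1, a ∉ U0
    · exact ⟨(0, 0), Or.inl h⟩
    · push Not at h
      obtain ⟨a, ha1, ha2⟩ := hU0.exists_gt s.2
      have hall : ∀ x ∈ a :: s.1, ∃ m, ∀ b ∈ P, m < b → c (Nat.pair x b) = i := by
        intro x hx
        have hxU : x ∈ U0 := by
          rcases List.mem_cons.1 hx with rfl | hx
          · exact ha1
          · exact h x hx
        obtain ⟨m, hm⟩ := hp x
        rw [hUi x hxU] at hm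
        exact ⟨m, hm⟩
      have hall2 : ∀ l : List ℕ, (∀ x ∈ l, ∃ m, ∀ b ∈ P, m < b → c (Nat.pair x b) = i) →
          ∃ m, ∀ x ∈ l, ∀ b ∈ P, m < b → c (Nat.pair x b) = i := by
        intro l
        induction l with
        | nil => exact fun _ => ⟨0, fun x hx => by simp at hx⟩
        | cons y l ih =>
          intro hl
          obtain ⟨m1, hm1⟩ := hl y List.mem_cons_self
          obtain ⟨m2, hm2⟩ := ih fun x hx => hl x (List.mem_cons_of_mem _ hx)
          refine ⟨m1 + m2, fun x hx b hb hlt => ?_⟩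
          rcases List.mem_cons.1 hx with rfl | hx
          · exact hm1 b hb (by omega)
          · exact hm2 x hx b hb (by omega)
      obtain ⟨m, hm⟩ := hall2 _ hall
      obtain ⟨b, hb1, hb2⟩ := hP.exists_gt (m + a)
      exact ⟨(a, b), Or.inr ⟨⟨ha1, hb1⟩, ⟨ha2, by show a < b; omega⟩,
        fun x hx => hm x hx b hb1 (by omega)⟩⟩
  obtain ⟨f, hf, hfR⟩ := choice hR htot
  let nx : List ℕ × ℕ → List ℕ × ℕ := fun s => ((f s).1 :: s.1, (f s).2)
  have hnx : Gr W' nx := Gr.post (g := fun y : (List ℕ × ℕ) × (ℕ × ℕ) =>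
    (y.2.1 :: y.1.1, y.2.2)) (by fun_prop) ((Gr.of_comp Computable.id).pair hf)
  let s : ℕ → List ℕ × ℕ := fun n => nx^[n] ([], 0)
  have hs : Gr W' s := Gr.iter hnx ([], 0)
  have hs_succ : ∀ n, s (n + 1) = ((f (s n)).1 :: (s n).1, (f (s n)).2) := fun n =>
    Function.iterate_succ_apply' nx n ([], 0)
  have hsU : ∀ n, ∀ a ∈ (s n).1, a ∈ U0 := by
    intro n
    induction n with
    | zero => intro a ha; simp [s] at ha
    | succ n ih =>
      intro a ha
      rw [hs_succ] at ha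
      rcases hfR (s n) with h | h
      · obtain ⟨a', ha', hn⟩ := h
        exact absurd (ih a' ha') hn
      · rcases List.mem_cons.1 ha with rfl | ha
        · exact h.1.1
        · exact ih a ha
  have hgood : ∀ n, ((f (s n)).1 ∈ U0 ∧ (f (s n)).2 ∈ P) ∧
      ((s n).2 < (f (s n)).1 ∧ (f (s n)).1 < (f (s n)).2) ∧
      ∀ a ∈ (f (s n)).1 :: (s n).1, c (Nat.pair a (f (s n)).2) = i := by
    intro n
    rcases hfR (s n) with ⟨a', ha', hn⟩ | h
    · exact absurd (hsU n a' ha') hn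
    · exact h
  let a : ℕ → ℕ := fun n => (f (s n)).1
  let b : ℕ → ℕ := fun n => (f (s n)).2
  have hab : ∀ n, a n < b n := fun n => (hgood n).2.1.2
  have hba : ∀ n, b n < a (n + 1) := fun n => by
    have h := (hgood (n + 1)).2.1.1
    rw [hs_succ] at h
    simp only at h
    show (f (s n)).2 < (f (s (n + 1))).1
    rw [hs_succ]
    exact h
  have hamono : StrictMono a := strictMono_nat_of_lt_succ fun n => (hab n).trans (hba n)
  have hbmono : StrictMono b := strictMono_nat_of_lt_succ fun n => (hba n).trans (hab (n + 1))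
  have hmem : ∀ m n, m < n → a m ∈ (s n).1 := by
    intro m n h
    induction n, h using Nat.le_induction with
    | base =>
      rw [hs_succ]
      exact List.mem_cons_self
    | succ n _ ih =>
      rw [hs_succ]
      exact List.mem_cons_of_mem _ ih
  have hga : Gr W' a := Gr.post (g := fun q : ℕ × ℕ => q.1) (by fun_prop) (hf.comp hs)
  have hgb : Gr W' b := Gr.post (g := fun q : ℕ × ℕ => q.2) (by fun_prop) (hf.comp hs)
  refine ⟨W', dW, hUC, Set.range a, Set.range b, range_dec hga hamono, range_dec hgb hbmono,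
    Set.infinite_range_of_injective hamono.injective,
    Set.infinite_range_of_injective hbmono.injective, i, ?_⟩
  rintro _ ⟨m, rfl⟩ _ ⟨n, rfl⟩ hmn
  have hle : m ≤ n := by
    by_contra hcon
    have h2 : b n < a (n + 1) := hba n
    have h3 : a (n + 1) ≤ a m := hamono.monotone (by omega)
    omega
  rcases Nat.lt_or_eq_of_le hle with h | rfl
  · exact (hgood n).2.2 _ (List.mem_cons_of_mem _ (hmem m n h))
  · exact (hgood m).2.2 _ List.mem_cons_self

/-- `W` computes a solution of the increasing polarized theorem for `g`. -/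
def Sv (W : Set ℕ) (g : ℕ → ℕ) : Prop :=
  (∃ k, ∀ n, g n < k) → ∃ U V : Set ℕ, Dec W U ∧ Dec W V ∧ U.Infinite ∧ V.Infinite ∧
    ∃ v, ∀ a ∈ U, ∀ b ∈ V, a < b → g (Nat.pair a b) = v

theorem Sv.lift {W W' : Set ℕ} {g : ℕ → ℕ} (h : Sv W g) (hW : Dec W' W) : Sv W' g := fun hk => by
  obtain ⟨U, V, h1, h2, h3⟩ := h hk
  exact ⟨U, V, h1.trans hW, h2.trans hW, h3⟩

theorem sv_step {W C : Set ℕ} (hC : ¬ Dec W C) {g : ℕ → ℕ} (hg : Gr W g) :
    ∃ W' : Set ℕ, ¬ Dec (join W W') C ∧ Sv (join W W') g := by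
  by_cases hk : ∃ k, ∀ n, g n < k
  · obtain ⟨k, hk⟩ := hk
    have h1 : Gr W fun n => (⟨g n, hk n⟩ : Fin k) := by
      have : Gr W fun n => ((⟨g n, hk n⟩ : Fin k) : ℕ) := hg
      exact St.gr_fin.1 this
    obtain ⟨W', h2, h3, U, V, h4, h5, h6, h7, i, hi⟩ := ipt_step hC h1
    refine ⟨W', fun h => h3 (h.trans (dec_join h2 Dec.rfl)), fun _ => ⟨U, V,
      h4.trans dec_right, h5.trans dec_right, h6, h7, i.val, fun a ha b hb hab => ?_⟩⟩
    exact congrArg Fin.val (hi a ha b hb hab)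
  · refine ⟨W, fun h => hC (h.trans (dec_join Dec.rfl Dec.rfl)), fun h => absurd h hk⟩

theorem exists_enum (W : Set ℕ) : ∃ e : ℕ → (ℕ → ℕ), ∀ g, Gr W g → ∃ j, e j = g := by
  have h1 : {g : ℕ → ℕ | Gr W g}.Countable := by
    refine Set.Countable.mono (s₂ := (fun g : ℕ → ℕ => fun p : ℕ × ℕ => g p.1 = p.2) ⁻¹'
      {p | REIn W p}) (fun g hg => hg) ?_
    refine (countable_rein (ℕ × ℕ) W).preimage_of_injOn ?_
    intro g _ g' _ h
    funext n
    have := congrFun h (n, g n)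
    simp only [eq_iff_iff, true_iff] at this
    exact this.symm
  have h2 : {g : ℕ → ℕ | Gr W g}.Nonempty := ⟨fun n => n, Gr.of_comp Computable.id⟩
  obtain ⟨e, he⟩ := h1.exists_eq_range h2
  refine ⟨e, fun g hg => ?_⟩
  have h3 : g ∈ Set.range e := by rw [← he]; exact hg
  exact h3

/-- the enumeration of the functions computable in `W` -/
noncomputable def en (W : Set ℕ) : ℕ → (ℕ → ℕ) := (exists_enum W).choose

theorem en_spec {W : Set ℕ} {g : ℕ → ℕ} (h : Gr W g) : ∃ j, en W j = g :=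
  (exists_enum W).choose_spec g h

/-- the left part -/
def lp (A : Set ℕ) : Set ℕ := {n | 2 * n ∈ A}

theorem lp_join (A B : Set ℕ) : lp (join A B) = A := by
  ext n
  exact mem_join_left

open Classical in
/-- the next set -/
noncomputable def nxs (C : Set ℕ) (n : ℕ) (W : Set ℕ) : Set ℕ :=
  if h : ∃ W' : Set ℕ, ¬ Dec (join W W') C ∧
      Sv (join W W') (en (lp^[n - n.unpair.1] W) n.unpair.2) then h.choose else ∅

/-- the chain -/
noncomputable def chn (C Z : Set ℕ) : ℕ → Set ℕ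
  | 0 => Z
  | n + 1 => join (chn C Z n) (nxs C n (chn C Z n))

theorem dec_empty {W : Set ℕ} : Dec W ∅ :=
  ⟨REIn.of_eq (REIn.of_re (RE.const False)) fun n => by simp,
    REIn.of_eq (REIn.of_re (RE.const True)) fun n => by simp⟩

theorem chn_avoid {C Z : Set ℕ} (hC : ¬ Dec Z C) (n : ℕ) : ¬ Dec (chn C Z n) C := by
  induction n with
  | zero => exact hC
  | succ n ih =>
    rw [chn]
    unfold nxs
    split_ifs with h
    · exact h.choose_spec.1
    · exact fun h1 => ih (h1.trans (dec_join Dec.rfl dec_empty))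

theorem chn_mono {C Z : Set ℕ} {m n : ℕ} (h : m ≤ n) : Dec (chn C Z n) (chn C Z m) := by
  induction n, h using Nat.le_induction with
  | base => exact Dec.rfl
  | succ n _ ih => exact ih.trans dec_left

theorem chn_lp {C Z : Set ℕ} (i k : ℕ) : lp^[k] (chn C Z (i + k)) = chn C Z i := by
  induction k with
  | zero => rfl
  | succ k ih => rw [Function.iterate_succ_apply, ← add_assoc, chn, lp_join, ih]

theorem chn_solve {C Z : Set ℕ} (hC : ¬ Dec Z C) {m : ℕ} {g : ℕ → ℕ} (hg : Gr (chn C Z m) g) :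
    ∃ n, Sv (chn C Z n) g := by
  obtain ⟨j, hj⟩ := en_spec hg
  set n := Nat.pair m j with hn
  have h1 : n.unpair.1 = m := by rw [hn, Nat.unpair_pair]
  have h2 : n.unpair.2 = j := by rw [hn, Nat.unpair_pair]
  have hmn : m ≤ n := Nat.left_le_pair _ _
  have h3 : lp^[n - m] (chn C Z n) = chn C Z m := by
    have := chn_lp (C := C) (Z := Z) m (n - m)
    rwa [Nat.add_sub_cancel' hmn] at this
  refine ⟨n + 1, ?_⟩
  obtain ⟨W', h4, h5⟩ := sv_step (chn_avoid hC n) (hg.lift (chn_mono hmn))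
  have h6 : ∃ W' : Set ℕ, ¬ Dec (join (chn C Z n) W') C ∧
      Sv (join (chn C Z n) W') (en (lp^[n - n.unpair.1] (chn C Z n)) n.unpair.2) := by
    rw [h1, h2, h3, hj]
    exact ⟨W', h4, h5⟩
  have h7 : nxs C n (chn C Z n) = h6.choose := by
    unfold nxs
    rw [dif_pos h6]
  have h8 := h6.choose_spec.2
  rw [chn, h7]
  simpa only [h1, h2, h3, hj] using h8

/-- Ideals which avoid a set. -/
theorem exists_ideal {C Z : Set ℕ} (hC : ¬ Dec Z C) : ∃ I : Set (Set ℕ), Idl I ∧ Z ∈ I ∧ C ∉ I ∧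
    I.Countable ∧ ∀ (k : ℕ) (c : ℕ → Fin k), InI I c → ∃ U ∈ I, ∃ V ∈ I, U.Infinite ∧ V.Infinite ∧
      ∃ i, ∀ a ∈ U, ∀ b ∈ V, a < b → c (Nat.pair a b) = i := by
  refine ⟨{B | ∃ n, Dec (chn C Z n) B}, ⟨⟨Z, 0, Dec.rfl⟩, ?_, ?_⟩, ⟨0, Dec.rfl⟩, ?_, ?_, ?_⟩
  · rintro A ⟨n, hn⟩ B hB
    exact ⟨n, hB.trans hn⟩
  · rintro A ⟨m, hm⟩ B ⟨n, hn⟩
    exact ⟨max m n, dec_join (hm.trans (chn_mono (le_max_left m n)))
      (hn.trans (chn_mono (le_max_right m n)))⟩
  · rintro ⟨n, hn⟩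
    exact chn_avoid hC n hn
  · have h1 : {B : Set ℕ | ∃ n, Dec (chn C Z n) B} = ⋃ n, {B | Dec (chn C Z n) B} := by
      ext B; simp
    rw [h1]
    refine Set.countable_iUnion fun n => ?_
    exact (countable_rein ℕ (chn C Z n)).mono fun B hB => hB.1
  · rintro k c ⟨A, ⟨m, hm⟩, hc⟩
    have h1 : Gr (chn C Z m) fun n => (c n).val := St.gr_fin.2 (hc.lift hm)
    obtain ⟨n, hn⟩ := chn_solve hC h1
    obtain ⟨U, V, h2, h3, h4, h5, v, hv⟩ := hn ⟨k, fun n => (c n).isLt⟩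
    obtain ⟨a0, ha0⟩ := h4.nonempty
    obtain ⟨b0, hb0, hab0⟩ := h5.exists_gt a0
    refine ⟨U, ⟨n, h2⟩, V, ⟨n, h3⟩, h4, h5, c (Nat.pair a0 b0), fun a ha b hb hab => ?_⟩
    exact Fin.ext ((hv a ha b hb hab).trans (hv a0 ha0 b0 hb0 hab0).symm)

end Pool.Agent.R603.HEP
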