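import Pool.Agent.R603.HEP.Rt

/-!
Cone avoidance for the pigeonhole principle and for cohesive sets: the constructions.
-/

namespace Pool.Agent.R603.HEP

open Encodable Pool.Agent.Helper446 Pool.Agent.Helper446.Defs Pool.Agent.Helper446.Oracle
open Pool.Agent.Y545.HM

/-- The union of an increasing sequence of finite parts obeys all the conditions. -/
theorem ob_union {F : ℕ → List ℕ} {X : ℕ → Set ℕ}
    (hF : ∀ n, ∃ E : List ℕ, F (n + 1) = F n ++ E ∧ ∀ x ∈ E, x ∈ X n)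
    (hX : ∀ n, X (n + 1) ⊆ X n) (n : ℕ) : Ob (F n) (X n) {x | ∃ m, x ∈ F m} := by
  have hXm : ∀ m n, n ≤ m → X m ⊆ X n := by
    intro m n h
    induction m, h using Nat.le_induction with
    | base => exact subset_rfl
    | succ m _ ih => exact (hX m).trans ih
  have hup : ∀ m n, n ≤ m → ∀ x ∈ F n, x ∈ F m := by
    intro m n h
    induction m, h using Nat.le_induction with
    | base => exact fun x hx => hx
    | succ m _ ih =>
      intro x hx
      obtain ⟨E, e1, -⟩ := hF m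
      rw [e1]
      exact List.mem_append.2 (Or.inl (ih x hx))
  have hmain : ∀ m, n ≤ m → ∀ x ∈ F m, x ∈ F n ∨ x ∈ X n := by
    intro m h
    induction m, h using Nat.le_induction with
    | base => exact fun x hx => Or.inl hx
    | succ m hnm ih =>
      intro x hx
      obtain ⟨E, e1, e2⟩ := hF m
      rw [e1] at hx
      rcases List.mem_append.1 hx with h | h
      · exact ih x h
      · exact Or.inr (hXm m n hnm (e2 x h))
  refine ⟨fun x hx => ⟨n, hx⟩, fun x ⟨m, hm⟩ => ?_⟩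
  rcases Nat.le_total m n with h | h
  · exact Or.inl (hup n m h x hm)
  · exact hmain m h x hm

theorem ob_more {F E : List ℕ} {X X' G : Set ℕ} (hE : ∀ x ∈ E, x ∈ X) (hX : X' ⊆ X)
    (h : Ob (F ++ E) X' G) : Ob F X G := by
  refine ⟨fun x hx => h.1 x (List.mem_append.2 (Or.inl hx)), fun x hx => ?_⟩
  rcases h.2 x hx with h1 | h1
  · rcases List.mem_append.1 h1 with h2 | h2
    · exact Or.inl h2
    · exact Or.inr (hE x h2)
  · exact Or.inr (hX h1)

/-- Strong cone avoidance for partitions into two parts. -/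
theorem rt2 {Z C P : Set ℕ} (A : Set ℕ) (hP : P.Infinite) (hC : ¬ Dec (join Z P) C) :
    ∃ G : Set ℕ, G.Infinite ∧ (G ⊆ P ∩ A ∨ G ⊆ P \ A) ∧ ¬ Dec (join Z G) C := by
  classical
  by_cases h : ∃ X : Set ℕ, X ⊆ P ∧ X.Infinite ∧ ¬ Dec (join Z X) C ∧
      ((X ∩ A).Finite ∨ (X \ A).Finite)
  · obtain ⟨X, h1, h2, h3, h4⟩ := h
    rcases h4 with h4 | h4
    · obtain ⟨m, hm⟩ := h4.bddAbove
      refine ⟨ab X m, ab_inf h2 m, Or.inr fun x hx => ⟨h1 hx.1, fun hxA => ?_⟩, nd_ab h3 m⟩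
      have := hm ⟨hx.1, hxA⟩
      have := hx.2
      omega
    · obtain ⟨m, hm⟩ := h4.bddAbove
      refine ⟨ab X m, ab_inf h2 m, Or.inl fun x hx => ⟨h1 hx.1, ?_⟩, nd_ab h3 m⟩
      by_contra hxA
      have := hm ⟨hx.1, hxA⟩
      have := hx.2
      omega
  · have hinf : ∀ X : Set ℕ, X ⊆ P → X.Infinite → ¬ Dec (join Z X) C →
        (X ∩ A).Infinite ∧ (X \ A).Infinite := by
      intro X h1 h2 h3
      constructor
      · intro hf
        exact h ⟨X, h1, h2, h3, Or.inl hf⟩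
      · intro hf
        exact h ⟨X, h1, h2, h3, Or.inr hf⟩
    let St := {p : (List ℕ × List ℕ) × Set ℕ // p.2 ⊆ P ∧ p.2.Infinite ∧
      ¬ Dec (join Z p.2) C}
    have hstep : ∀ (q : Rq Z × Rq Z) (n : ℕ) (p : St), ∃ p' : St, p'.1.2 ⊆ p.1.2 ∧
        ((∃ E, p'.1.1.1 = p.1.1.1 ++ E ∧ (∀ x ∈ E, x ∈ p.1.2 ∩ A) ∧ ∃ x ∈ E, n < x) ∧
        ∃ E, p'.1.1.2 = p.1.1.2 ++ E ∧ (∀ x ∈ E, x ∈ p.1.2 \ A) ∧ ∃ x ∈ E, n < x) ∧
        ((∀ G, Ob p'.1.1.1 p'.1.2 G → ¬ Dcd C q.1.1 G) ∨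
          ∀ G, Ob p'.1.1.2 p'.1.2 G → ¬ Dcd C q.2.1 G) := by
      rintro ⟨⟨Q, hQ⟩, ⟨Q', hQ'⟩⟩ n ⟨⟨⟨F, F'⟩, X⟩, hXP, hXi, hXC⟩
      simp only at hXP hXi hXC
      obtain ⟨E, E', X', h1, h2, h3, h4, h5, h6⟩ := step2 (A := A) hXi hXC hQ hQ' F F'
      obtain ⟨h7, h8⟩ := hinf X' (h2.trans hXP) h1 h3
      obtain ⟨a, ha1, ha2⟩ := h7.exists_gt n
      obtain ⟨b, hb1, hb2⟩ := h8.exists_gt n
      refine ⟨⟨((F ++ (E ++ [a]), F' ++ (E' ++ [b])), X'), h2.trans hXP, h1, h3⟩, h2,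
        ⟨⟨E ++ [a], rfl, ?_, a, by simp, ha2⟩, ⟨E' ++ [b], rfl, ?_, b, by simp, hb2⟩⟩, ?_⟩
      · intro x hx
        rcases List.mem_append.1 hx with h | h
        · exact h4 x h
        · rw [List.mem_singleton] at h
          rw [h]
          exact ⟨h2 ha1.1, ha1.2⟩
      · intro x hx
        rcases List.mem_append.1 hx with h | h
        · exact h5 x h
        · rw [List.mem_singleton] at h
          rw [h]
          exact ⟨h2 hb1.1, hb1.2⟩
      · simp only
        rcases h6 with h6 | h6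
        · left
          intro G hG
          rw [← List.append_assoc] at hG
          refine h6 G (ob_more (E := [a]) (fun x hx => ?_) subset_rfl hG)
          rw [List.mem_singleton] at hx
          rw [hx]
          exact ha1.1
        · right
          intro G hG
          rw [← List.append_assoc] at hG
          refine h6 G (ob_more (E := [b]) (fun x hx => ?_) subset_rfl hG)
          rw [List.mem_singleton] at hx
          rw [hx]
          exact hb1.1
    choose f hf1 hf2 hf3 using hstep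
    have : Countable (Rq Z) := countable_rq Z
    have : Nonempty (Rq Z) := (rq_nonempty Z).to_subtype
    obtain ⟨e, he⟩ := exists_surjective_nat (Rq Z × Rq Z)
    let g : ℕ → St := fun n =>
      Nat.rec ⟨(([], []), P), subset_rfl, hP, hC⟩ (fun n p => f (e n) n p) n
    have hg : ∀ n, g (n + 1) = f (e n) n (g n) := fun n => rfl
    have hX : ∀ n, (g (n + 1)).1.2 ⊆ (g n).1.2 := fun n => by
      rw [hg]; exact hf1 _ _ _
    have hXP : ∀ n, (g n).1.2 ⊆ P := fun n => (g n).2.1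
    have hF : ∀ n, ∃ E, (g (n + 1)).1.1.1 = (g n).1.1.1 ++ E ∧
        (∀ x ∈ E, x ∈ (g n).1.2 ∩ A) ∧ ∃ x ∈ E, n < x := fun n => by
      rw [hg]; exact (hf2 _ _ _).1
    have hF' : ∀ n, ∃ E, (g (n + 1)).1.1.2 = (g n).1.1.2 ++ E ∧
        (∀ x ∈ E, x ∈ (g n).1.2 \ A) ∧ ∃ x ∈ E, n < x := fun n => by
      rw [hg]; exact (hf2 _ _ _).2
    let G0 : Set ℕ := {x | ∃ m, x ∈ (g m).1.1.1}
    let G1 : Set ℕ := {x | ∃ m, x ∈ (g m).1.1.2}
    have hob0 := ob_union (F := fun n => (g n).1.1.1) (X := fun n => (g n).1.2)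
      (fun n => by obtain ⟨E, e1, e2, -⟩ := hF n; exact ⟨E, e1, fun x hx => (e2 x hx).1⟩) hX
    have hob1 := ob_union (F := fun n => (g n).1.1.2) (X := fun n => (g n).1.2)
      (fun n => by obtain ⟨E, e1, e2, -⟩ := hF' n; exact ⟨E, e1, fun x hx => (e2 x hx).1⟩) hX
    have hsub0 : G0 ⊆ P ∩ A := by
      rintro x ⟨m, hm⟩
      induction m with
      | zero => simp [g] at hm
      | succ m ih =>
        obtain ⟨E, e1, e2, -⟩ := hF m
        rw [e1] at hm
        rcases List.mem_append.1 hm with h | h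
        · exact ih h
        · exact ⟨hXP m (e2 x h).1, (e2 x h).2⟩
    have hsub1 : G1 ⊆ P \ A := by
      rintro x ⟨m, hm⟩
      induction m with
      | zero => simp [g] at hm
      | succ m ih =>
        obtain ⟨E, e1, e2, -⟩ := hF' m
        rw [e1] at hm
        rcases List.mem_append.1 hm with h | h
        · exact ih h
        · exact ⟨hXP m (e2 x h).1, (e2 x h).2⟩
    have hinf0 : G0.Infinite := by
      refine Set.infinite_of_forall_exists_gt fun n => ?_
      obtain ⟨E, e1, -, x, hx, hnx⟩ := hF n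
      exact ⟨x, ⟨n + 1, by rw [e1]; exact List.mem_append.2 (Or.inr hx)⟩, hnx⟩
    have hinf1 : G1.Infinite := by
      refine Set.infinite_of_forall_exists_gt fun n => ?_
      obtain ⟨E, e1, -, x, hx, hnx⟩ := hF' n
      exact ⟨x, ⟨n + 1, by rw [e1]; exact List.mem_append.2 (Or.inr hx)⟩, hnx⟩
    by_cases h0 : Dec (join Z G0) C
    · by_cases h1 : Dec (join Z G1) C
      · obtain ⟨Q, hQ, hd⟩ := dec_join_iff.1 h0
        obtain ⟨Q', hQ', hd'⟩ := dec_join_iff.1 h1
        obtain ⟨n, hn⟩ := he (⟨Q, hQ⟩, ⟨Q', hQ'⟩)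
        exfalso
        have h3 := hf3 (e n) n (g n)
        rw [← hg n, hn] at h3
        rcases h3 with h3 | h3
        · exact h3 G0 (hob0 (n + 1)) hd
        · exact h3 G1 (hob1 (n + 1)) hd'
      · exact ⟨G1, hinf1, Or.inr hsub1, h1⟩
    · exact ⟨G0, hinf0, Or.inl hsub0, h0⟩

/-- Strong cone avoidance for partitions into finitely many parts. -/
theorem rtk {Z C : Set ℕ} {k : ℕ} (p : ℕ → Fin k) (S : Finset (Fin k)) :
    ∀ P : Set ℕ, P.Infinite → ¬ Dec (join Z P) C → (∀ x ∈ P, p x ∈ S) →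
    ∃ (G : Set ℕ) (i : Fin k), G.Infinite ∧ (∀ x ∈ G, p x = i) ∧ ¬ Dec (join Z G) C := by
  classical
  induction S using Finset.induction_on with
  | empty =>
    intro P hP _ h
    obtain ⟨x, hx⟩ := hP.nonempty
    exact absurd (h x hx) (by simp)
  | insert i S _ ih =>
    intro P hP hC h
    obtain ⟨G, h1, h2, h3⟩ := rt2 {x | p x = i} hP hC
    rcases h2 with h2 | h2
    · exact ⟨G, i, h1, fun x hx => (h2 hx).2, h3⟩
    · refine ih G h1 h3 fun x hx => ?_
      have h4 := h x (h2 hx).1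
      have h5 : p x ≠ i := (h2 hx).2
      exact (Finset.mem_insert.1 h4).resolve_left h5

theorem dec_univ {Z : Set ℕ} : Dec Z (join Z Set.univ) :=
  dec_join Dec.rfl ⟨REIn.of_eq (REIn.of_re (RE.const True)) fun n => by simp,
    REIn.of_eq (REIn.of_re (RE.const False)) fun n => by simp⟩

/-- Cohesive sets with cone avoidance. -/
theorem coh {Z C : Set ℕ} (hC : ¬ Dec Z C) {k : ℕ} {c : ℕ → Fin k} (hc : Gr Z c) :
    ∃ P : Set ℕ, P.Infinite ∧ ¬ Dec (join Z P) C ∧
      ∀ a, ∃ (i : Fin k) (m : ℕ), ∀ b ∈ P, m < b → c (Nat.pair a b) = i := by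
  classical
  let St := {p : List ℕ × Set ℕ // p.2.Infinite ∧ ¬ Dec (join Z p.2) C}
  have hstep : ∀ (q : Rq Z) (n : ℕ) (p : St), ∃ p' : St, p'.1.2 ⊆ p.1.2 ∧
      (∃ E, p'.1.1 = p.1.1 ++ E ∧ (∀ x ∈ E, x ∈ p.1.2) ∧ ∃ x ∈ E, n < x) ∧
      (∀ G, Ob p'.1.1 p'.1.2 G → ¬ Dcd C q.1 G) ∧
      ∃ i, ∀ b ∈ p'.1.2, c (Nat.pair n b) = i := by
    rintro ⟨Q, hQ⟩ n ⟨⟨F, X⟩, hXi, hXC⟩
    simp only at hXi hXC
    obtain ⟨E, m, h1, h2⟩ := step1 hXi hXC hQ F
    have h3 := ab_inf hXi m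
    have h4 := nd_ab hXC m
    obtain ⟨i, hi⟩ : ∃ i : Fin k, {b | b ∈ ab X m ∧ c (Nat.pair n b) = i}.Infinite := by
      by_contra hcon
      push Not at hcon
      apply h3
      refine (Set.finite_iUnion fun i => hcon i).subset fun b hb => ?_
      exact Set.mem_iUnion.2 ⟨c (Nat.pair n b), hb, rfl⟩
    have h5 : Dec (join Z (ab X m)) {b | b ∈ ab X m ∧ c (Nat.pair n b) = i} := by
      have h6 : Gr (join Z (ab X m)) fun b => c (Nat.pair n b) :=
        (hc.pre (g := fun b : ℕ => Nat.pair n b)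
          (Computable₂.comp Primrec₂.natPair.to_comp (Computable.const n) Computable.id)).lift
          dec_left
      constructor
      · refine REIn.and dec_right.1 ?_
        exact re_gr (S := fun j : Fin k => j = i) (REIn.of_re (RE.eq (by fun_prop) (by fun_prop))) h6
      · refine REIn.of_eq (REIn.or dec_right.2 (re_gr (S := fun j : Fin k => j ≠ i)
          (REIn.of_re (RE.ne (by fun_prop) (by fun_prop))) h6)) fun b => ?_
        show _ ↔ ¬ (b ∈ ab X m ∧ c (Nat.pair n b) = i)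
        rw [not_and_or]
    obtain ⟨a, ha1, ha2⟩ := hi.exists_gt n
    refine ⟨⟨(F ++ (E ++ [a]), {b | b ∈ ab X m ∧ c (Nat.pair n b) = i}), hi, nd_of h4 h5⟩,
      fun b hb => hb.1.1, ⟨E ++ [a], rfl, ?_, a, by simp, ha2⟩, ?_, i, fun b hb => hb.2⟩
    · intro x hx
      rcases List.mem_append.1 hx with h | h
      · exact h1 x h
      · rw [List.mem_singleton] at h
        rw [h]
        exact ha1.1.1
    · intro G hG
      simp only at hG
      rw [← List.append_assoc] at hG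
      refine h2 G (ob_more (E := [a]) (fun x hx => ?_) (fun b hb => hb.1) hG)
      rw [List.mem_singleton] at hx
      rw [hx]
      exact ha1.1
  choose f hf1 hf2 hf3 hf4 using hstep
  have : Countable (Rq Z) := countable_rq Z
  have : Nonempty (Rq Z) := (rq_nonempty Z).to_subtype
  obtain ⟨e, he⟩ := exists_surjective_nat (Rq Z)
  let g : ℕ → St := fun n =>
    Nat.rec ⟨([], Set.univ), Set.infinite_univ, fun h => hC (h.trans dec_univ)⟩
      (fun n p => f (e n) n p) n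
  have hg : ∀ n, g (n + 1) = f (e n) n (g n) := fun n => rfl
  have hX : ∀ n, (g (n + 1)).1.2 ⊆ (g n).1.2 := fun n => by
    rw [hg]; exact hf1 _ _ _
  have hF : ∀ n, ∃ E, (g (n + 1)).1.1 = (g n).1.1 ++ E ∧
      (∀ x ∈ E, x ∈ (g n).1.2) ∧ ∃ x ∈ E, n < x := fun n => by
    rw [hg]; exact hf2 _ _ _
  have hob := ob_union (F := fun n => (g n).1.1) (X := fun n => (g n).1.2)
    (fun n => by obtain ⟨E, e1, e2, -⟩ := hF n; exact ⟨E, e1, e2⟩) hX
  refine ⟨{x | ∃ m, x ∈ (g m).1.1}, ?_, ?_, ?_⟩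
  · refine Set.infinite_of_forall_exists_gt fun n => ?_
    obtain ⟨E, e1, -, x, hx, hnx⟩ := hF n
    exact ⟨x, ⟨n + 1, by rw [e1]; exact List.mem_append.2 (Or.inr hx)⟩, hnx⟩
  · intro h
    obtain ⟨Q, hQ, hd⟩ := dec_join_iff.1 h
    obtain ⟨n, hn⟩ := he ⟨Q, hQ⟩
    have h3 := hf3 (e n) n (g n)
    rw [← hg n, hn] at h3
    exact h3 _ (hob (n + 1)) hd
  · intro a
    obtain ⟨i, hi⟩ := hf4 (e a) a (g a)
    rw [← hg a] at hi
    refine ⟨i, (g (a + 1)).1.1.sum, fun b hb hlt => hi b ?_⟩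
    rcases (hob (a + 1)).2 b hb with h | h
    · have h2 := List.single_le_sum (fun _ _ => Nat.zero_le _) b h
      omega
    · exact h

end Pool.Agent.R603.HEP
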