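import Pool.Agent.R603.HEP.Fwd
import Pool.Agent.R603.HEP.Bwd

/-!
Colourings which also depend on the digits in windows at the two ends.
-/

namespace Pool.Agent.R603.HEP

open Encodable Pool.Agent.Helper446 Pool.Agent.Helper446.Defs Pool.Agent.Helper446.Oracle
open Pool.Agent.Y545.HM

/-- The colour of a number `n` other than `0` depends only on the `r` lowest and the `r` highest
positions of nonzero binary digits of `n`, on the digits at the positions below `G l` and on the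
digits at the positions from `H u` on, where `l` and `u` are the lowest and the highest position of
a nonzero digit, and on the value of the word of the binary digits of `n`, beginning with the
lowest, under the homomorphism `φ` to a monoid. -/
def Wins {k : ℕ} {M : Type} [Monoid M] (r : ℕ) (G H : ℕ → ℕ) (φ : ℕ → M) (c : ℕ → Fin k) :
    Prop :=
  ∀ m n, m ≠ 0 → n ≠ 0 → m.bitIndices.take r = n.bitIndices.take r →
    m.bitIndices.reverse.take r = n.bitIndices.reverse.take r →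
    padicValNat 2 m = padicValNat 2 n → Nat.log 2 m = Nat.log 2 n →
    m % 2 ^ G (padicValNat 2 m) = n % 2 ^ G (padicValNat 2 m) →
    m / 2 ^ H (Nat.log 2 m) = n / 2 ^ H (Nat.log 2 m) →
    ((Nat.digits 2 m).map φ).prod = ((Nat.digits 2 n).map φ).prod → c m = c n

theorem val_ge : ∀ {l : List ℕ}, l ≠ [] → 2 ^ len l ≤ 2 * val l
  | [], h => absurd rfl h
  | [g], _ => by
    simp only [len, val]
    rw [show g + 1 + 0 = g + 1 by ring, pow_succ]
    omega
  | g :: g' :: l, _ => by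
    have h1 := val_ge (l := g' :: l) (by simp)
    rw [val, len, show g + 1 + len (g' :: l) = g + (len (g' :: l) + 1) by ring, pow_add 2 g,
      ← mul_assoc, mul_comm 2 (2 ^ g), mul_assoc]
    refine Nat.mul_le_mul_left _ ?_
    rw [pow_succ]
    omega

theorem padic_val (g : ℕ) (l : List ℕ) : padicValNat 2 (val (g :: l)) = g := by
  rw [val, padicValNat.mul (by positivity) (by omega), padicValNat.prime_pow]
  have : padicValNat 2 (2 * val l + 1) = 0 := by
    rw [padicValNat.eq_zero_iff]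
    right; right
    omega
  omega

/-- the last beginning -/
def la (a : ℕ) : List (ℕ × ℕ) → ℕ
  | [] => a
  | q :: L => la q.1 L

section

variable {N t D : ℕ} (hD : D * N = 2 * Q N t + N)

theorem le_la : ∀ (L : List (ℕ × ℕ)) (a b : ℕ), a ≤ b → Ch D b L → a ≤ la a L
  | [], a, b, _, _ => le_rfl
  | q :: L, a, b, hab, ⟨h1, h2, h3⟩ => by
    have := le_la L q.1 q.2 (by omega) h3
    rw [la]
    omega

include hD in
theorem split_last' : ∀ (L : List (ℕ × ℕ)) (q : ℕ × ℕ) (p : ℕ), Ch D p (q :: L) →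
    ∃ l m, gl N t p (q :: L) = l ++ (m :: List.replicate t N) ∧
      p * N + len l + m + Q N t = lb q.2 L * N ∧ p * N + len l = la q.1 L * N + Q N t
  | [], q, p, ⟨h1, h2, _⟩ => by
    refine ⟨((q.1 - p) * N) :: List.replicate t N, q.2 * N - q.1 * N - 2 * Q N t, ?_, ?_, ?_⟩
    · simp [gl, B]
    · have h3 := len_block hD h1 h2
      rw [B, len_append, len_half N t (q.2 * N - q.1 * N - 2 * Q N t)] at h3
      rw [lb]
      omega
    · rw [len_half, la]
      have h4 : p * N + (q.1 - p) * N = q.1 * N := by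
        rw [← add_mul]; congr 1; omega
      omega
  | q' :: L, q, p, ⟨h1, h2, h3⟩ => by
    obtain ⟨l, m, e1, e2, e3⟩ := split_last' L q' q.2 h3
    refine ⟨B N t ((q.1 - p) * N) (q.2 * N - q.1 * N - 2 * Q N t) ++ l, m, ?_, ?_, ?_⟩
    · rw [gl, e1, List.append_assoc]
    · have h4 := len_block hD h1 h2
      rw [len_append, lb]
      omega
    · have h4 := len_block hD h1 h2
      rw [len_append, la]
      omega

include hD in
/-- The top of a sum of blocks. -/
theorem top (q : ℕ × ℕ) (L : List (ℕ × ℕ)) (h : Ch D 0 (q :: L)) :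
    ∃ Z, val (gl N t 0 (q :: L)) = Z + 2 ^ (lb q.2 L * N - Q N t) * R N t ∧
      Z < 2 ^ (la q.1 L * N + Q N t) ∧ Z < 2 ^ (lb q.2 L * N - Q N t) := by
  obtain ⟨l, m, e1, e2, e3⟩ := split_last' hD L q 0 h
  rw [zero_mul, zero_add] at e2 e3
  refine ⟨val l, ?_, ?_, ?_⟩
  · rw [e1, val_append, val_half, ← mul_assoc, ← pow_add]
    congr 3
    omega
  · rw [← e3]
    exact val_lt l
  · refine lt_of_lt_of_le (val_lt l) (Nat.pow_le_pow_right (by norm_num) ?_)
    omega

include hD in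
/-- The bottom of a sum of blocks. -/
theorem bot (q : ℕ × ℕ) (L : List (ℕ × ℕ)) (h : Ch D 0 (q :: L)) :
    ∃ Y, val (gl N t 0 (q :: L)) = 2 ^ (q.1 * N) * R N t + 2 ^ (q.2 * N - Q N t) * Y := by
  obtain ⟨h1, h2, h3⟩ := h
  have h4 := gap hD h2
  refine ⟨val (0 :: (List.replicate t N ++ gl N t q.2 L)), ?_⟩
  rw [gl, B, List.append_assoc, val_append, len_half, val_half, List.cons_append, val, val,
    pow_zero, one_mul, ← mul_assoc, ← pow_add, Nat.sub_zero]
  congr 3
  omega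

include hD in
theorem len_gl : ∀ (L : List (ℕ × ℕ)) (q : ℕ × ℕ) (p : ℕ), Ch D p (q :: L) →
    p * N + len (gl N t p (q :: L)) = lb q.2 L * N := by
  intro L q p h
  obtain ⟨l, m, e1, e2, -⟩ := split_last' hD L q p h
  rw [e1, len_append, len_half]
  omega

include hD in
theorem log_gl (q : ℕ × ℕ) (L : List (ℕ × ℕ)) (h : Ch D 0 (q :: L)) :
    Nat.log 2 (val (gl N t 0 (q :: L))) = lb q.2 L * N - 1 := by
  have e := len_gl hD L q 0 h
  rw [zero_mul, zero_add] at e
  have h1 := val_lt (gl N t 0 (q :: L))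
  have h2 := val_ge (gl_ne N t 0 q L)
  have h3 := val_pos (gl_ne N t 0 q L)
  rw [e] at h1 h2
  have h4 : 0 < lb q.2 L * N := by
    by_contra hcon
    have : lb q.2 L * N = 0 := by omega
    rw [this, pow_zero] at h1
    omega
  obtain ⟨s, hs⟩ : ∃ s, lb q.2 L * N = s + 1 := ⟨lb q.2 L * N - 1, by omega⟩
  rw [hs] at h1 h2 ⊢
  rw [Nat.log_eq_iff (Or.inr ⟨by norm_num, by omega⟩)]
  rw [pow_succ] at h2
  exact ⟨by rw [Nat.add_sub_cancel]; omega, by rw [Nat.add_sub_cancel]; exact h1⟩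

theorem div_eq {Z Z' T s h : ℕ} (hZ : Z < 2 ^ s) (hZ' : Z' < 2 ^ s) (hh : Z < 2 ^ h)
    (hh' : Z' < 2 ^ h) : (Z + 2 ^ s * T) / 2 ^ h = (Z' + 2 ^ s * T) / 2 ^ h := by
  rcases Nat.le_total h s with hs | hs
  · obtain ⟨d, rfl⟩ := Nat.exists_eq_add_of_le hs
    rw [pow_add, mul_assoc, Nat.add_mul_div_left _ _ (by positivity),
      Nat.add_mul_div_left _ _ (by positivity), Nat.div_eq_of_lt hh, Nat.div_eq_of_lt hh']
  · obtain ⟨d, rfl⟩ := Nat.exists_eq_add_of_le hs
    rw [pow_add, ← Nat.div_div_eq_div_mul, ← Nat.div_div_eq_div_mul,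
      Nat.add_mul_div_left _ _ (by positivity), Nat.add_mul_div_left _ _ (by positivity),
      Nat.div_eq_of_lt hZ, Nat.div_eq_of_lt hZ']

variable {r k : ℕ} {G H : ℕ → ℕ} {M : Type} [Monoid M] {φ : ℕ → M} {c : ℕ → Fin k}

include hD in
theorem colourW (hN : 0 < N) (ht : N ∣ t + 1) (hr : r ≤ t + 1)
    (he : IsIdempotentElem (φ 0 ^ N)) (hy : IsIdempotentElem ((φ 0 ^ N * φ 1) ^ N))
    (hc : Wins r G H φ c) (q : ℕ × ℕ) (L : List (ℕ × ℕ)) (h : Ch D 0 (q :: L))
    (hG : G (q.1 * N) + Q N t ≤ q.2 * N)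
    (hH : la q.1 L * N + Q N t ≤ H (lb q.2 L * N - 1)) :
    c ((q :: L).map fun q => xx N t q.1 q.2).sum = c (xx N t q.1 (lb q.2 L)) := by
  have hlb := le_lb L q.2 h.2.2
  have h' : Ch D 0 [(q.1, lb q.2 L)] := by
    obtain ⟨h1, h2, h3⟩ := h
    exact ⟨h1, by show q.1 + D ≤ lb q.2 L; omega, trivial⟩
  have hla : q.1 ≤ la q.1 L := le_la L q.1 q.2 (by have := h.2.1; omega) h.2.2
  have e1 := sum_gl hD (q :: L) 0 h
  have e2 := sum_gl hD [(q.1, lb q.2 L)] 0 h'
  rw [zero_mul, pow_zero, one_mul] at e1 e2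
  simp only [List.map_cons, List.map_nil, List.sum_cons, List.sum_nil, add_zero] at e2
  rw [e1, e2]
  have p1 : padicValNat 2 (val (gl N t 0 (q :: L))) = q.1 * N := by
    rw [gl, B, List.append_assoc, List.cons_append, padic_val, Nat.sub_zero]
  have p2 : padicValNat 2 (val (gl N t 0 [(q.1, lb q.2 L)])) = q.1 * N := by
    rw [gl, B, List.append_assoc, List.cons_append, padic_val, Nat.sub_zero]
  have l1 := log_gl hD q L h
  have l2 : Nat.log 2 (val (gl N t 0 [(q.1, lb q.2 L)])) = lb q.2 L * N - 1 := log_gl hD _ [] h'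
  refine hc _ _ (val_pos (gl_ne _ _ _ _ _)).ne' (val_pos (gl_ne _ _ _ _ _)).ne' ?_ ?_
    (p1.trans p2.symm) (l1.trans l2.symm) ?_ ?_ ?_
  · rw [bitIndices_val, bitIndices_val, take_low q L hr, take_low _ [] hr]
  · rw [bitIndices_val, bitIndices_val, take_high hD q L hr h, take_high hD _ [] hr h']
    rfl
  · rw [p1]
    obtain ⟨Y, hY⟩ := bot hD q L h
    obtain ⟨Y', hY'⟩ := bot hD (q.1, lb q.2 L) [] h'
    rw [hY, hY']
    have hle : q.2 * N ≤ lb q.2 L * N := Nat.mul_le_mul_right N hlb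
    obtain ⟨d, hd⟩ := Nat.exists_eq_add_of_le (show G (q.1 * N) ≤ q.2 * N - Q N t by omega)
    obtain ⟨d', hd'⟩ := Nat.exists_eq_add_of_le (show G (q.1 * N) ≤ lb q.2 L * N - Q N t by omega)
    simp only
    rw [hd, hd', pow_add, pow_add, mul_assoc, mul_assoc, Nat.add_mul_mod_self_left,
      Nat.add_mul_mod_self_left]
  · rw [l1]
    obtain ⟨Z, hZ, hZ1, hZ2⟩ := top hD q L h
    obtain ⟨Z', hZ', hZ1', hZ2'⟩ := top hD (q.1, lb q.2 L) [] h'
    rw [hZ, hZ']
    have hle : q.1 * N ≤ la q.1 L * N := Nat.mul_le_mul_right N hla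
    refine div_eq hZ2 hZ2' (lt_of_lt_of_le hZ1 (Nat.pow_le_pow_right (by norm_num) hH))
      (lt_of_lt_of_le hZ1' (Nat.pow_le_pow_right (by norm_num) ?_))
    simp only [la]
    omega
  · have := wd_val φ (gl N t 0 (q :: L))
    have h2 := wd_val φ (gl N t 0 [(q.1, lb q.2 L)])
    unfold wd at this h2
    rw [this, h2, im_gl hD hN ht he hy L q 0 h, im_gl hD hN ht he hy [] _ 0 h']

end

theorem lb_map' {a b : ℕ → ℕ} : ∀ (L : List ℕ) (i : ℕ), ∃ j, lb (b i)
    (L.map fun i => (a i, b i)) = b j ∧ la (a i) (L.map fun i => (a i, b i)) = a j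
  | [], i => ⟨i, rfl, rfl⟩
  | i' :: L, i => by
    rw [List.map_cons, lb, la]
    exact lb_map' L i'

/-- The reduction. -/
theorem forwardW {M : Type} [Monoid M] [Finite M] (φ : ℕ → M) (r : ℕ) :
    ∃ g : ℕ → ℕ, Primrec g ∧ ∀ (G H : ℕ → ℕ), (∀ b, ∃ u0, ∀ u, u0 ≤ u → b ≤ H u) →
      ∀ (k : ℕ) (c : ℕ → Fin k), Wins r G H φ c → ∀ C U V : Set ℕ, Gr C G → Gr C H → Dec C U →
      Dec C V → U.Infinite → V.Infinite →
      (∃ i, ∀ a ∈ U, ∀ b ∈ V, a < b → c (g (Nat.pair a b)) = i) → ∃ X, Sol c X ∧ Dec C X := by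
  classical
  obtain ⟨N, hN, hid⟩ := exists_idem (M := M)
  obtain ⟨t, ht⟩ : ∃ t, t + 1 = N * (r + 1) :=
    ⟨N * (r + 1) - 1, Nat.sub_add_cancel (Nat.mul_pos hN (by omega))⟩
  have hr : r ≤ t + 1 := by
    rw [ht]
    nlinarith
  let D : ℕ := 2 * (r + 1) + 2 * t + 1
  have hD : D * N = 2 * Q N t + N := by
    have h1 : 2 * Q N t = 2 * (t + 1) + 2 * t * N := by rw [Q]; ring
    rw [h1, ht]
    show (2 * (r + 1) + 2 * t + 1) * N = _
    ring
  let g : ℕ → ℕ := fun n => xx N t n.unpair.1 n.unpair.2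
  have hg : Primrec g := by
    have h1 : Primrec fun n : ℕ => n.unpair.1 := Primrec.fst.comp Primrec.unpair
    have h2 : Primrec fun n : ℕ => n.unpair.2 := Primrec.snd.comp Primrec.unpair
    have h3 : Primrec fun n : ℕ => 2 ^ (n.unpair.1 * N) :=
      pr_pow2.comp (Primrec.nat_mul.comp h1 (Primrec.const N))
    have h4 : Primrec fun n : ℕ => 2 ^ (n.unpair.2 * N - Q N t) :=
      pr_pow2.comp (Primrec.nat_sub.comp (Primrec.nat_mul.comp h2 (Primrec.const N))
        (Primrec.const (Q N t)))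
    exact Primrec.nat_mul.comp (Primrec.const (R N t)) (Primrec.nat_add.comp h3 h4)
  refine ⟨g, hg, ?_⟩
  rintro G H hHinf k c hc C U V hGr hHr hU hV hUi hVi ⟨i, hi⟩
  have hgp : ∀ a b, g (Nat.pair a b) = xx N t a b := by
    intro a b
    show xx N t _ _ = _
    rw [Nat.unpair_pair]
  simp only [hgp] at hi
  -- the selection
  let Rr : ℕ → ℕ × ℕ → Prop := fun b q => ((q.1 ∈ U ∧ q.2 ∈ V) ∧ (b < q.1 ∧ q.1 + D ≤ q.2)) ∧
    (G (q.1 * N) + Q N t ≤ q.2 * N ∧ q.1 * N + Q N t ≤ H (q.2 * N - 1))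
  have cm : ∀ f : ℕ × (ℕ × ℕ) → ℕ, Computable f → Computable fun x => f x * N := fun f hf =>
    (Primrec.nat_mul.comp Primrec.id (Primrec.const N)).to_comp.comp hf
  have cm1 : ∀ f : ℕ × (ℕ × ℕ) → ℕ, Computable f → Computable fun x => f x * N - 1 := fun f hf =>
    (Primrec.nat_sub.comp (Primrec.nat_mul.comp Primrec.id (Primrec.const N))
      (Primrec.const 1)).to_comp.comp hf
  have hRr : REIn C fun x : ℕ × (ℕ × ℕ) => Rr x.1 x.2 := by
    refine REIn.and (REIn.and (REIn.and ?_ ?_) (REIn.and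
      (REIn.of_re (RE.lt (by fun_prop) (by fun_prop)))
      (REIn.of_re (RE.le (by fun_prop) (by fun_prop))))) (REIn.and ?_ ?_)
    · exact hU.1.comp (f := fun x : ℕ × (ℕ × ℕ) => x.2.1) (by fun_prop)
    · exact hV.1.comp (f := fun x : ℕ × (ℕ × ℕ) => x.2.2) (by fun_prop)
    · refine re_gr (S := fun y : ℕ × ℕ => y.1 + Q N t ≤ y.2)
        (f := fun x : ℕ × (ℕ × ℕ) => (G (x.2.1 * N), x.2.2 * N))
        (REIn.of_re (RE.le (by fun_prop) (by fun_prop))) ?_
      exact (hGr.pre (g := fun x : ℕ × (ℕ × ℕ) => x.2.1 * N) (cm _ (by fun_prop))).pair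
        (Gr.of_comp (cm _ (by fun_prop)))
    · refine re_gr (S := fun y : ℕ × ℕ => y.1 + Q N t ≤ y.2)
        (f := fun x : ℕ × (ℕ × ℕ) => (x.2.1 * N, H (x.2.2 * N - 1)))
        (REIn.of_re (RE.le (by fun_prop) (by fun_prop))) ?_
      exact (Gr.of_comp (cm _ (by fun_prop))).pair
        (hHr.pre (g := fun x : ℕ × (ℕ × ℕ) => x.2.2 * N - 1) (cm1 _ (by fun_prop)))
  have htot : ∀ b, ∃ q, Rr b q := by
    intro b
    obtain ⟨a', h1, h2⟩ := hUi.exists_gt b
    obtain ⟨u0, hu0⟩ := hHinf (a' * N + Q N t)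
    obtain ⟨b', h3, h4⟩ := hVi.exists_gt (a' + D + (G (a' * N) + Q N t) + (u0 + 1))
    have h5 : b' ≤ b' * N := Nat.le_mul_of_pos_right _ hN
    exact ⟨(a', b'), ⟨⟨h1, h3⟩, h2, by show a' + D ≤ b'; omega⟩,
      by show G (a' * N) + Q N t ≤ b' * N; omega, hu0 _ (by show u0 ≤ b' * N - 1; omega)⟩
  obtain ⟨f, hf, hfR⟩ := choice hRr htot
  let st : ℕ → ℕ × ℕ := fun j => (fun q : ℕ × ℕ => f q.2)^[j] (0, 0)
  have hst : Gr C st := Gr.iter (f := fun q : ℕ × ℕ => f q.2)
    (hf.pre (g := fun q : ℕ × ℕ => q.2) (by fun_prop)) (0, 0)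
  have hst_succ : ∀ j, st (j + 1) = f (st j).2 := fun j =>
    Function.iterate_succ_apply' (fun q : ℕ × ℕ => f q.2) j (0, 0)
  have hR1 : ∀ j, Rr (st j).2 (st (j + 1)) := by
    intro j
    rw [hst_succ]
    exact hfR _
  let a : ℕ → ℕ := fun j => (st (j + 1)).1
  let b : ℕ → ℕ := fun j => (st (j + 1)).2
  have haU : ∀ j, a j ∈ U := fun j => (hR1 j).1.1.1
  have hbV : ∀ j, b j ∈ V := fun j => (hR1 j).1.1.2
  have ha0 : ∀ j, 0 < a j := fun j => lt_of_le_of_lt (Nat.zero_le _) (hR1 j).1.2.1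
  have hab : ∀ j, a j + D ≤ b j := fun j => (hR1 j).1.2.2
  have haG : ∀ j, G (a j * N) + Q N t ≤ b j * N := fun j => (hR1 j).2.1
  have haH : ∀ j, a j * N + Q N t ≤ H (b j * N - 1) := fun j => (hR1 j).2.2
  have hba1 : ∀ j, b j < a (j + 1) := fun j => (hR1 (j + 1)).1.2.1
  have hbmono : StrictMono b := strictMono_nat_of_lt_succ fun j => by
    have h1 := hba1 j
    have h2 := hab (j + 1)
    omega
  have hba : ∀ i j, i < j → b i < a j := by
    intro i j hij
    obtain ⟨j, rfl⟩ : ∃ j', j = j' + 1 := ⟨j - 1, by omega⟩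
    exact lt_of_le_of_lt (hbmono.monotone (by omega)) (hba1 j)
  let x : ℕ → ℕ := fun j => xx N t (a j) (b j)
  have hx : Gr C x := by
    have h1 : Computable fun q : ℕ × ℕ => xx N t q.1 q.2 := by
      have h2 : Computable fun q : ℕ × ℕ => g (Nat.pair q.1 q.2) :=
        hg.to_comp.comp (Computable₂.comp Primrec₂.natPair.to_comp Computable.fst Computable.snd)
      refine h2.of_eq fun q => hgp _ _
    exact Gr.post h1 (hst.pre (g := fun j : ℕ => j + 1) (by fun_prop))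
  have hxmono : StrictMono x := by
    refine strictMono_nat_of_lt_succ fun j => ?_
    have h1 : x j < 2 ^ (b j * N) := xx_lt hD (ha0 j) (hab j)
    have h2 : 2 ^ (a (j + 1) * N) ≤ x (j + 1) := le_xx _ _
    have h3 : (2 : ℕ) ^ (b j * N) ≤ 2 ^ (a (j + 1) * N) :=
      Nat.pow_le_pow_right (by norm_num) (Nat.mul_le_mul_right N (hba1 j).le)
    omega
  refine ⟨Set.range x, ⟨Set.infinite_range_of_injective hxmono.injective, ?_, i, ?_⟩,
    range_dec hx hxmono⟩
  · rintro ⟨j, hj⟩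
    have : 0 < x j := xx_pos _ _
    omega
  · intro F hF hne
    rw [← Set.image_univ] at hF
    obtain ⟨G', -, rfl⟩ := Finset.subset_set_image_iff.1 hF
    have hGne : G'.Nonempty := Finset.image_nonempty.1 hne
    rw [Finset.sum_image (fun a _ b _ h => hxmono.injective h)]
    have h1 : ∑ j ∈ G', x j = (G'.sort.map x).sum := by
      rw [← List.sum_toFinset x (Finset.sort_nodup G' (· ≤ ·)), Finset.sort_toFinset]
    rw [h1]
    have h2 : G'.sort.Pairwise (· < ·) := (Finset.sortedLT_sort G').pairwise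
    have h3 : G'.sort ≠ [] := by
      intro h4
      obtain ⟨z, hz⟩ := hGne
      rw [← Finset.mem_sort (· ≤ ·), h4] at hz
      simp at hz
    obtain ⟨j, L, hL⟩ := List.exists_cons_of_ne_nil h3
    rw [hL] at h2 ⊢
    have h5 := ch_map hab hba (j :: L) 0 h2 fun i _ => ha0 i
    obtain ⟨j', hj', hj''⟩ := lb_map' (a := a) (b := b) L j
    have h6 := colourW hD hN (Dvd.intro _ ht.symm) hr (hid _) (hid _) hc (a j, b j)
      (L.map fun i => (a i, b i)) h5 (haG j) (by
        show la (a j) _ * N + Q N t ≤ H (lb (b j) _ * N - 1)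
        rw [hj', hj'']
        exact haH j')
    have h7 : ((a j, b j) :: L.map fun i => (a i, b i)).map (fun q => xx N t q.1 q.2) =
        (j :: L).map x := by
      simp [x, Function.comp_def]
    rw [h7] at h6
    rw [h6]
    have h8 := le_lb _ _ h5.2.2
    show c (xx N t (a j) (lb (b j) (L.map fun i => (a i, b i)))) = i
    have h8' : b j ≤ lb (b j) (L.map fun i => (a i, b i)) := h8
    rw [hj'] at h8' ⊢
    refine hi _ (haU j) _ (hbV j') ?_
    have := hab j
    have hD0 : 0 < D := by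
      show 0 < 2 * (r + 1) + 2 * t + 1
      omega
    omega

end Pool.Agent.R603.HEP
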