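import Mathlib

/-!
Numbers given by the list of the gaps between their nonzero binary digits.
-/

namespace Pool.Agent.R603.HEP

/-- the number with the given gaps in front of its nonzero binary digits -/
def val : List ℕ → ℕ
  | [] => 0
  | g :: l => 2 ^ g * (2 * val l + 1)

/-- the number of digits -/
def len : List ℕ → ℕ
  | [] => 0
  | g :: l => g + 1 + len l

/-- the positions of the nonzero digits -/
def pos : List ℕ → List ℕ
  | [] => []
  | g :: l => g :: (pos l).map (· + (g + 1))

theorem bitIndices_val : ∀ l : List ℕ, (val l).bitIndices = pos l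
  | [] => by simp [val, pos]
  | g :: l => by
    rw [val, Nat.bitIndices_two_pow_mul, Nat.bitIndices_two_mul_add_one, bitIndices_val l, pos]
    simp only [List.map_cons, List.map_map, zero_add]
    congr 1
    apply List.map_congr_left
    intro x _
    simp only [Function.comp]
    omega

theorem pos_length : ∀ l : List ℕ, (pos l).length = l.length
  | [] => rfl
  | g :: l => by simp [pos, pos_length l]

theorem val_append : ∀ l l' : List ℕ, val (l ++ l') = val l + 2 ^ len l * val l'
  | [], l' => by simp [val, len]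
  | g :: l, l' => by
    rw [List.cons_append, val, val_append l l', val, len]
    ring

theorem len_append : ∀ l l' : List ℕ, len (l ++ l') = len l + len l'
  | [], l' => by simp [len]
  | g :: l, l' => by
    rw [List.cons_append, len, len_append l l', len]
    ring

theorem pos_append : ∀ l l' : List ℕ, pos (l ++ l') = pos l ++ (pos l').map (· + len l)
  | [], l' => by simp [pos, len]
  | g :: l, l' => by
    rw [List.cons_append, pos, pos_append l l', pos, len]
    simp only [List.map_append, List.map_map, List.cons_append]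
    congr 2
    apply List.map_congr_left
    intro x _
    simp only [Function.comp]
    omega

theorem len_rep (t N : ℕ) : len (List.replicate t N) = t * (N + 1) := by
  induction t with
  | zero => simp [len]
  | succ t ih => rw [List.replicate_succ, len, ih]; ring

section Monoid

variable {M : Type} [Monoid M] (φ : ℕ → M)

/-- the value of the binary word of a number -/
def wd (n : ℕ) : M := ((Nat.digits 2 n).map φ).prod

theorem wd_val : ∀ l : List ℕ, wd φ (val l) = (l.map fun g => φ 0 ^ g * φ 1).prod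
  | [] => by simp [wd, val]
  | g :: l => by
    have h1 : Nat.digits 2 (2 ^ g * (2 * val l + 1)) =
        List.replicate g 0 ++ (1 :: Nat.digits 2 (val l)) := by
      rw [Nat.digits_base_pow_mul (by norm_num) (by omega)]
      congr 1
      have := Nat.digits_add 2 (by norm_num) 1 (val l) (by norm_num) (Or.inl one_ne_zero)
      rw [← this]
      congr 1
      ring
    have h2 : wd φ (val (g :: l)) = φ 0 ^ g * (φ 1 * wd φ (val l)) := by
      unfold wd
      rw [val, h1]
      simp
    rw [h2, wd_val l, List.map_cons, List.prod_cons, mul_assoc]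

end Monoid

theorem exists_idem {M : Type} [Monoid M] [Finite M] :
    ∃ N : ℕ, 0 < N ∧ ∀ x : M, IsIdempotentElem (x ^ N) := by
  classical
  have h1 : ∀ x : M, ∃ n : ℕ, 0 < n ∧ IsIdempotentElem (x ^ n) := by
    intro x
    obtain ⟨i, j, hij, he⟩ := Finite.exists_ne_map_eq_of_infinite fun i : ℕ => x ^ i
    wlog h : i < j generalizing i j
    · exact this j i hij.symm he.symm (by omega)
    obtain ⟨p, rfl⟩ : ∃ p, j = i + p := ⟨j - i, by omega⟩
    have hp : 0 < p := by omega
    have he : x ^ i = x ^ (i + p) := he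
    have h2 : ∀ s n, x ^ (i + n) = x ^ (i + n + p * s) := by
      intro s n
      induction s with
      | zero => rfl
      | succ s ih =>
        rw [ih, show i + n + p * (s + 1) = (i + p) + (n + p * s) by ring, pow_add x (i + p),
          ← he, ← pow_add]
        congr 1
        ring
    refine ⟨p * (i + 1), by positivity, ?_⟩
    obtain ⟨n, hn⟩ : ∃ n, p * (i + 1) = i + n := ⟨p * (i + 1) - i, by nlinarith [Nat.sub_add_cancel (show i ≤ p * (i + 1) by nlinarith)]⟩
    show x ^ (p * (i + 1)) * x ^ (p * (i + 1)) = x ^ (p * (i + 1))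
    rw [← pow_add]
    conv_rhs => rw [hn, h2 (i + 1) n, ← hn]
  choose n hn hx using h1
  have := Fintype.ofFinite M
  refine ⟨∏ x : M, n x, Finset.prod_pos fun x _ => hn x, fun x => ?_⟩
  rw [← Finset.mul_prod_erase Finset.univ n (Finset.mem_univ x), pow_mul]
  exact (hx x).pow _

/-! ### Blocks -/

section Blocks

variable (N t : ℕ)

/-- the length of a half block -/
def Q : ℕ := 1 + t * (N + 1)

/-- the gaps of a block -/
def B (g m : ℕ) : List ℕ := (g :: List.replicate t N) ++ (m :: List.replicate t N)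

/-- the number of a half block -/
def R : ℕ := val (0 :: List.replicate t N)

/-- the block -/
def xx (a b : ℕ) : ℕ := R N t * (2 ^ (a * N) + 2 ^ (b * N - Q N t))

theorem len_half (g : ℕ) : len (g :: List.replicate t N) = g + Q N t := by
  rw [len, len_rep, Q]; ring

theorem val_half (g : ℕ) : val (g :: List.replicate t N) = 2 ^ g * R N t := by
  simp only [R, val, pow_zero, one_mul]

theorem len_B (g m : ℕ) : len (B N t g m) = g + m + 2 * Q N t := by
  rw [B, len_append, len_half, len_half]; ring

theorem val_B (g m : ℕ) : val (B N t g m) = R N t * (2 ^ g + 2 ^ (g + Q N t + m)) := by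
  rw [B, val_append, len_half, val_half, val_half]; ring

/-- the gaps of a sum of blocks -/
def gl (p : ℕ) : List (ℕ × ℕ) → List ℕ
  | [] => []
  | q :: L => B N t ((q.1 - p) * N) (q.2 * N - q.1 * N - 2 * Q N t) ++ gl q.2 L

/-- the blocks are separated -/
def Ch (D p : ℕ) : List (ℕ × ℕ) → Prop
  | [] => True
  | q :: L => p < q.1 ∧ q.1 + D ≤ q.2 ∧ Ch D q.2 L

/-- the last end -/
def lb (b : ℕ) : List (ℕ × ℕ) → ℕ
  | [] => b
  | q :: L => lb q.2 L

variable {N t} {r D : ℕ} (hD : D * N = 2 * Q N t + N)

include hD in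
theorem gap {a b : ℕ} (h : a + D ≤ b) : a * N + 2 * Q N t + N ≤ b * N := by
  have h1 := Nat.mul_le_mul_right N h
  rw [add_mul, hD] at h1
  omega

include hD in
theorem len_block {p : ℕ} {q : ℕ × ℕ} (h1 : p < q.1) (h2 : q.1 + D ≤ q.2) :
    p * N + len (B N t ((q.1 - p) * N) (q.2 * N - q.1 * N - 2 * Q N t)) = q.2 * N := by
  have h3 := gap hD h2
  have h4 : p * N + (q.1 - p) * N = q.1 * N := by
    rw [← add_mul]; congr 1; omega
  rw [len_B]
  omega

include hD in
theorem val_block {p : ℕ} {q : ℕ × ℕ} (h1 : p < q.1) (h2 : q.1 + D ≤ q.2) :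
    2 ^ (p * N) * val (B N t ((q.1 - p) * N) (q.2 * N - q.1 * N - 2 * Q N t)) =
      xx N t q.1 q.2 := by
  have h3 := gap hD h2
  have h4 : p * N + (q.1 - p) * N = q.1 * N := by
    rw [← add_mul]; congr 1; omega
  rw [val_B, xx]
  rw [show 2 ^ (p * N) * (R N t * (2 ^ ((q.1 - p) * N) + 2 ^ ((q.1 - p) * N + Q N t +
      (q.2 * N - q.1 * N - 2 * Q N t)))) = R N t * (2 ^ (p * N + (q.1 - p) * N) +
      2 ^ (p * N + ((q.1 - p) * N + Q N t + (q.2 * N - q.1 * N - 2 * Q N t)))) by
    rw [pow_add 2 (p * N), pow_add 2 (p * N)]; ring]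
  rw [h4]
  congr 3
  omega

include hD in
theorem sum_gl : ∀ (L : List (ℕ × ℕ)) (p : ℕ), Ch D p L →
    (L.map fun q => xx N t q.1 q.2).sum = 2 ^ (p * N) * val (gl N t p L)
  | [], p, _ => by simp [gl, val]
  | q :: L, p, ⟨h1, h2, h3⟩ => by
    rw [List.map_cons, List.sum_cons, sum_gl L q.2 h3, gl, val_append, mul_add, val_block hD h1 h2,
      ← mul_assoc, ← pow_add, len_block hD h1 h2]

theorem le_lb : ∀ (L : List (ℕ × ℕ)) (b : ℕ), Ch D b L → b ≤ lb b L
  | [], b, _ => le_rfl
  | q :: L, b, ⟨h1, h2, h3⟩ => by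
    have := le_lb L q.2 h3
    rw [lb]
    omega

theorem take_low {p : ℕ} (q : ℕ × ℕ) (L : List (ℕ × ℕ)) (hr : r ≤ t + 1) :
    (pos (gl N t p (q :: L))).take r = (pos (((q.1 - p) * N) :: List.replicate t N)).take r := by
  rw [gl, B, List.append_assoc, pos_append, List.take_append_of_le_length]
  rw [pos_length]
  simpa using hr

include hD in
theorem split_last : ∀ (L : List (ℕ × ℕ)) (q : ℕ × ℕ) (p : ℕ), Ch D p (q :: L) →
    ∃ l m, gl N t p (q :: L) = l ++ (m :: List.replicate t N) ∧
      p * N + len l + m + Q N t = lb q.2 L * N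
  | [], q, p, ⟨h1, h2, _⟩ => by
    refine ⟨((q.1 - p) * N) :: List.replicate t N, q.2 * N - q.1 * N - 2 * Q N t, ?_, ?_⟩
    · simp [gl, B]
    · have h3 := len_block hD h1 h2
      rw [B, len_append, len_half N t (q.2 * N - q.1 * N - 2 * Q N t)] at h3
      rw [lb]
      omega
  | q' :: L, q, p, ⟨h1, h2, h3⟩ => by
    obtain ⟨l, m, e1, e2⟩ := split_last L q' q.2 h3
    refine ⟨B N t ((q.1 - p) * N) (q.2 * N - q.1 * N - 2 * Q N t) ++ l, m, ?_, ?_⟩
    · rw [gl, e1, List.append_assoc]
    · have h4 := len_block hD h1 h2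
      rw [len_append, lb]
      omega

include hD in
theorem take_high {p : ℕ} (q : ℕ × ℕ) (L : List (ℕ × ℕ)) (hr : r ≤ t + 1) (h : Ch D p (q :: L)) :
    (pos (gl N t p (q :: L))).reverse.take r =
      ((lb q.2 L * N - Q N t - p * N) :: (pos (List.replicate t N)).map
        (· + (lb q.2 L * N - Q N t - p * N + 1))).reverse.take r := by
  obtain ⟨l, m, e1, e2⟩ := split_last hD L q p h
  rw [e1, pos_append, List.reverse_append, List.take_append_of_le_length]
  · congr 2
    rw [pos, List.map_cons, List.map_map]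
    have h3 : m + len l = lb q.2 L * N - Q N t - p * N := by omega
    rw [h3]
    congr 1
    apply List.map_congr_left
    intro x _
    simp only [Function.comp]
    omega
  · simp [pos_length]
    exact hr

variable {M : Type} [Monoid M] {φ : ℕ → M}

include hD in
theorem im_gl (_hN : 0 < N) (ht : N ∣ t + 1)
    (he : IsIdempotentElem (φ 0 ^ N)) (hy : IsIdempotentElem ((φ 0 ^ N * φ 1) ^ N)) :
    ∀ (L : List (ℕ × ℕ)) (q : ℕ × ℕ) (p : ℕ), Ch D p (q :: L) →
    ((gl N t p (q :: L)).map fun g => φ 0 ^ g * φ 1).prod = (φ 0 ^ N * φ 1) ^ N := by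
  have hB : ∀ (q : ℕ × ℕ) (p : ℕ), p < q.1 → q.1 + D ≤ q.2 →
      ((B N t ((q.1 - p) * N) (q.2 * N - q.1 * N - 2 * Q N t)).map
        fun g => φ 0 ^ g * φ 1).prod = (φ 0 ^ N * φ 1) ^ N := by
    intro q p h1 h2
    have h3 : ∀ s, 0 < s → φ 0 ^ (s * N) = φ 0 ^ N := by
      intro s hs
      rw [mul_comm, pow_mul]
      exact he.pow_eq (by omega)
    have h4 : q.2 * N - q.1 * N - 2 * Q N t = (q.2 - q.1 - D + 1) * N := by
      have h5 : (q.2 - q.1 - D + 1) * N + q.1 * N + D * N = q.2 * N + N := by
        rw [← add_mul, ← add_mul]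
        have : q.2 - q.1 - D + 1 + q.1 + D = q.2 + 1 := by omega
        rw [this]
        ring
      omega
    rw [B, List.map_append, List.prod_append, List.map_cons, List.map_cons, List.prod_cons,
      List.prod_cons, List.map_replicate, List.prod_replicate, h3 _ (by omega), h4,
      h3 _ (by omega), ← pow_succ', ← pow_add]
    obtain ⟨s, hs⟩ := ht
    rw [show t + 1 + (t + 1) = N * (2 * s) by rw [hs]; ring, pow_mul]
    refine hy.pow_eq ?_
    rintro h6
    rcases Nat.mul_eq_zero.1 h6 with h7 | h7
    · omega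
    · rw [h7] at hs; omega
  intro L
  induction L with
  | nil =>
    rintro q p ⟨h1, h2, -⟩
    rw [gl, List.map_append, List.prod_append, hB q p h1 h2]
    simp [gl]
  | cons q' L ih =>
    rintro q p ⟨h1, h2, h3⟩
    rw [gl, List.map_append, List.prod_append, hB q p h1 h2, ih q' q.2 h3]
    exact hy

end Blocks

end Pool.Agent.R603.HEP
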